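import Pool.Agent.Q221.Rabin.Sanov

set_option autoImplicit false

open scoped Pointwise

/-!
# Adjoining braid roots and free letters to a group
-/

namespace Pool.Agent.Q221.Rabin

/-- `p` and `q` freely generate a free group. -/
def FreePair {K : Type} [Group K] (p q : K) : Prop :=
  Function.Injective (FreeGroup.lift (fun b : Bool => if b then p else q))

theorem FreePair.map {K K' : Type} [Group K] [Group K'] {p q : K} (h : FreePair p q)
    (ι : K →* K') (hι : Function.Injective ι) : FreePair (ι p) (ι q) := by
  have : FreeGroup.lift (fun b : Bool => if b then ι p else ι q) =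
      ι.comp (FreeGroup.lift (fun b : Bool => if b then p else q)) := by
    ext b; cases b <;> simp
  unfold FreePair
  rw [this]
  exact hι.comp h

/-- Given a free pair `p, q`, there is `v` in an overgroup with `v ^ 4 = q` and `p v p = v p v`. -/
theorem adjoin_root {K : Type} [Group K] (p q : K) (h : FreePair p q) :
    ∃ (K' : Type) (_ : Group K') (ι : K →* K') (v : K'), Function.Injective ι ∧
      v ^ 4 = ι q ∧ ι p * v * ι p = v * ι p * v := by
  let φ1 : FreeGroup Bool →* K × Equiv.Perm NZ :=
    (MonoidHom.inl K (Equiv.Perm NZ)).comp (FreeGroup.lift (fun b : Bool => if b then p else q))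
  let φ2 : FreeGroup Bool →* K × Equiv.Perm NZ :=
    (MonoidHom.inr K (Equiv.Perm NZ)).comp (FreeGroup.lift ab0)
  let φ : ∀ _ : Bool, FreeGroup Bool →* K × Equiv.Perm NZ := fun b => if b then φ1 else φ2
  have hφ : ∀ b, Function.Injective (φ b) := by
    rintro (_ | _)
    · intro a b hab
      exact free0 (Prod.ext_iff.1 hab).2
    · intro a b hab
      exact h (Prod.ext_iff.1 hab).1
  have hof := fun b => Monoid.PushoutI.of_injective hφ b
  have e1 : ∀ x, (Monoid.PushoutI.of (φ := φ) true) (φ1 x) =
      (Monoid.PushoutI.of (φ := φ) false) (φ2 x) := by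
    intro x
    have h1 := Monoid.PushoutI.of_apply_eq_base φ true x
    have h2 := Monoid.PushoutI.of_apply_eq_base φ false x
    exact h1.trans h2.symm
  refine ⟨Monoid.PushoutI φ, inferInstance,
    (Monoid.PushoutI.of true).comp (MonoidHom.inl K (Equiv.Perm NZ)),
    Monoid.PushoutI.of false (1, v0), ?_, ?_, ?_⟩
  · exact (hof true).comp fun a b hab => (Prod.ext_iff.1 hab).1
  · have := e1 (FreeGroup.of false)
    simp only [φ1, φ2, MonoidHom.comp_apply, FreeGroup.lift_apply_of] at this ⊢
    rw [← map_pow]
    simp only [Bool.false_eq_true, if_false] at this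
    rw [this]
    congr 1
    exact Prod.ext (by simp) (by simp [ab0])
  · have := e1 (FreeGroup.of true)
    simp only [φ1, φ2, MonoidHom.comp_apply, FreeGroup.lift_apply_of] at this ⊢
    simp only [if_true] at this
    rw [this, ← map_mul, ← map_mul, ← map_mul, ← map_mul]
    congr 1
    exact Prod.ext (by simp) (by simpa [ab0] using braid0)

theorem adjoin_roots (n : ℕ) : ∀ (K : Type) [Group K] (p q : Fin n → K),
    (∀ i, FreePair (p i) (q i)) →
    ∃ (K' : Type) (_ : Group K') (ι : K →* K') (v : Fin n → K'), Function.Injective ι ∧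
      ∀ i, v i ^ 4 = ι (q i) ∧ ι (p i) * v i * ι (p i) = v i * ι (p i) * v i := by
  induction n with
  | zero =>
    intro K _ p q _
    exact ⟨K, inferInstance, MonoidHom.id K, fun i => i.elim0, Function.injective_id,
      fun i => i.elim0⟩
  | succ n ih =>
    intro K _ p q h
    obtain ⟨K1, _, ι1, v1, h1, h1'⟩ := ih K (fun i => p i.castSucc) (fun i => q i.castSucc)
      (fun i => h i.castSucc)
    obtain ⟨K2, _, ι2, v2, h2, h2', h2''⟩ := adjoin_root (ι1 (p (Fin.last n)))
      (ι1 (q (Fin.last n))) ((h (Fin.last n)).map ι1 h1)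
    refine ⟨K2, inferInstance, ι2.comp ι1, Fin.lastCases v2 (fun i => ι2 (v1 i)), h2.comp h1, ?_⟩
    intro i
    refine Fin.lastCases ?_ (fun i => ?_) i
    · simp only [Fin.lastCases_last, MonoidHom.comp_apply]
      exact ⟨h2', h2''⟩
    · simp only [Fin.lastCases_castSucc, MonoidHom.comp_apply]
      obtain ⟨h3, h4⟩ := h1' i
      constructor
      · rw [← map_pow, h3]
      · rw [← map_mul, ← map_mul, h4, map_mul, map_mul]

theorem lift_of_injective {P : Type} [Group P] (a : Bool → P)
    (ha : ∀ b, ∀ n : ℤ, a b ^ n = 1 → n = 0) :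
    Function.Injective (FreeGroup.lift (fun b =>
      (Monoid.CoprodI.of (i := b) (a b) : Monoid.CoprodI (fun _ : Bool => P)))) := by
  classical
  have : FreeGroup.lift (fun b =>
        (Monoid.CoprodI.of (i := b) (a b) : Monoid.CoprodI (fun _ : Bool => P))) =
      (Monoid.CoprodI.lift fun b => FreeGroup.lift fun _ =>
        (Monoid.CoprodI.of (i := b) (a b) : Monoid.CoprodI (fun _ : Bool => P))).comp
        (@freeGroupEquivCoprodI Bool).toMonoidHom := by
    ext i
    simp
  rw [this, MonoidHom.coe_comp]
  clear this
  refine Function.Injective.comp ?_ (MulEquiv.injective freeGroupEquivCoprodI)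
  let X' : Bool → Set (Monoid.CoprodI.Word (fun _ : Bool => P)) := fun b => {w | w.fstIdx = some b}
  have hne : ∀ b, a b ≠ 1 := fun b h => by
    have := ha b 1 (by rw [h, one_zpow])
    omega
  have hemp : ∀ b : Bool, (Monoid.CoprodI.Word.empty (M := fun _ : Bool => P)).fstIdx ≠ some b := by
    intro b; simp [Monoid.CoprodI.Word.fstIdx, Monoid.CoprodI.Word.empty]
  apply Monoid.CoprodI.lift_injective_of_ping_pong _ (Or.inr ⟨true, ?_⟩) X'
  · intro b
    refine ⟨Monoid.CoprodI.Word.cons (a b) Monoid.CoprodI.Word.empty (hemp b) (hne b), ?_⟩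
    simp [X', Monoid.CoprodI.Word.fstIdx_cons]
  · intro i j hij
    rw [Function.onFun, Set.disjoint_left]
    intro w h1 h2
    simp only [X', Set.mem_ofPred_eq] at h1 h2
    rw [h1] at h2
    exact hij (Option.some.inj h2)
  · intro i j hij
    refine FreeGroup.freeGroupUnitEquivInt.forall_congr_left.mpr ?_
    intro n hne1
    change FreeGroup.lift (fun _ =>
      (Monoid.CoprodI.of (i := i) (a i) : Monoid.CoprodI (fun _ : Bool => P))) (FreeGroup.of () ^ n) •
      X' j ⊆ X' i
    simp only [map_zpow, FreeGroup.lift_apply_of]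
    have hnne0 : n ≠ 0 := by
      rintro rfl
      apply hne1
      simp [FreeGroup.freeGroupUnitEquivInt]
    rintro _ ⟨w, hw, rfl⟩
    simp only [X', Set.mem_ofPred_eq] at hw ⊢
    have hp : a i ^ n ≠ 1 := fun h => hnne0 (ha i n h)
    have hfst : w.fstIdx ≠ some i := by
      rw [hw]
      intro h
      exact hij (Option.some.inj h).symm
    have h1 : (Monoid.CoprodI.of (i := i) (a i) : Monoid.CoprodI (fun _ : Bool => P)) ^ n • w =
        Monoid.CoprodI.Word.cons (a i ^ n) w hfst hp := by
      rw [Monoid.CoprodI.Word.cons_eq_smul, map_zpow]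
    change ((Monoid.CoprodI.of (i := i) (a i) : Monoid.CoprodI (fun _ : Bool => P)) ^ n • w).fstIdx =
      some i
    rw [h1, Monoid.CoprodI.Word.fstIdx_cons]
  · have : Infinite (FreeGroup Unit) := Infinite.of_injective
      FreeGroup.freeGroupUnitEquivInt.symm (Equiv.injective _)
    exact le_trans (Cardinal.natCast_lt_aleph0 (n := 3)).le (Cardinal.aleph0_le_mk _)

theorem FreePair.symm {K : Type} [Group K] {p q : K} (h : FreePair p q) : FreePair q p := by
  have : FreeGroup.lift (fun b : Bool => if b then q else p) =
      (FreeGroup.lift (fun b : Bool => if b then p else q)).comp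
        (FreeGroup.freeGroupCongr Equiv.boolNot).toMonoidHom := by
    ext b; cases b <;> simp
  unfold FreePair
  rw [this, MonoidHom.coe_comp]
  exact h.comp (MulEquiv.injective _)

/-- Adjoining a letter which is free with respect to every element of infinite order. -/
theorem adjoin_free {G : Type} [Group G] : ∃ (K : Type) (_ : Group K) (ι : G →* K) (u : K),
    Function.Injective ι ∧ ∀ g : G, (∀ n : ℤ, g ^ n = 1 → n = 0) →
      FreePair u (ι g) ∧ FreePair (ι g) u := by
  refine ⟨Monoid.CoprodI (fun _ : Bool => G × Multiplicative ℤ), inferInstance,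
    (Monoid.CoprodI.of (i := true)).comp (MonoidHom.inl G _),
    Monoid.CoprodI.of (i := false) (1, Multiplicative.ofAdd 1), ?_, ?_⟩
  · exact (Monoid.CoprodI.of_injective true).comp fun a b hab => (Prod.ext_iff.1 hab).1
  · intro g hg
    have h1 := lift_of_injective (P := G × Multiplicative ℤ)
      (fun b => if b then (g, 1) else (1, Multiplicative.ofAdd 1)) (by
        rintro (_ | _) n h
        · have h2 := (Prod.ext_iff.1 h).2
          simp only [Bool.false_eq_true, if_false, Prod.pow_snd, ← ofAdd_zsmul, Prod.snd_one] at h2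
          have h3 := congrArg Multiplicative.toAdd h2
          simpa using h3
        · have h2 := (Prod.ext_iff.1 h).1
          exact hg n (by simpa using h2))
    have h2 : FreePair ((Monoid.CoprodI.of (M := fun _ : Bool => G × Multiplicative ℤ)
        (i := true)) (g, 1)) ((Monoid.CoprodI.of (M := fun _ : Bool => G × Multiplicative ℤ)
        (i := false)) (1, Multiplicative.ofAdd 1)) := by
      unfold FreePair
      have h3 : (fun b : Bool => if b then (Monoid.CoprodI.of
          (M := fun _ : Bool => G × Multiplicative ℤ) (i := true)) (g, 1) else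
          (Monoid.CoprodI.of (M := fun _ : Bool => G × Multiplicative ℤ)
          (i := false)) (1, Multiplicative.ofAdd 1)) = (fun b : Bool =>
          (Monoid.CoprodI.of (M := fun _ : Bool => G × Multiplicative ℤ)
          (i := b)) (if b then (g, 1) else (1, Multiplicative.ofAdd 1))) := by
        funext b; cases b <;> rfl
      rw [h3]
      exact h1
    exact ⟨h2.symm, h2⟩

end Pool.Agent.Q221.Rabin
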