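import Mathlib

set_option autoImplicit false

/-!
# Codes of finite presentations
-/

namespace Pool.Agent.Q221.Rabin

/-- A code of a finite presentation: the number `n` of generators `x₀, …, x_{n-1}` and a list of
relators, which are words in the letters `(i, true)` (the generator `x_i`) and `(i, false)` (its
inverse). Letters `(i, b)` with `n ≤ i` are read as `1`. -/
abbrev PCode : Type := ℕ × List (List (ℕ × Bool))

/-- The relators of a code: `x_i` for `n ≤ i`, and the words of the list. -/
def codeRels (P : PCode) : Set (FreeGroup ℕ) :=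
  {g | (∃ i, P.1 ≤ i ∧ g = FreeGroup.of i) ∨ ∃ w ∈ P.2, g = FreeGroup.mk w}

/-- The group with the finite presentation `P`. -/
abbrev CGrp (P : PCode) : Type := PresentedGroup (codeRels P)

section

variable {X : Type} {N : ℕ} (e : X ≃ Fin N)

/-- Translation of words. -/
def trw (w : List (X × Bool)) : List (ℕ × Bool) := w.map fun p => ((e p.1 : ℕ), p.2)

theorem mk_trw (w : List (X × Bool)) : FreeGroup.mk (trw e w) =
    FreeGroup.map (fun x => (e x : ℕ)) (FreeGroup.mk w) := by
  rw [FreeGroup.map.mk]; rfl

/-- A presentation over a finite type of generators has a code. -/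
theorem code_equiv (L : List (List (X × Bool))) : Nonempty (CGrp (N, L.map (trw e)) ≃*
    PresentedGroup {g : FreeGroup X | ∃ w ∈ L, g = FreeGroup.mk w}) := by
  classical
  set R := {g : FreeGroup X | ∃ w ∈ L, g = FreeGroup.mk w} with hR
  let f0 : ℕ → PresentedGroup R := fun i => if h : i < N then PresentedGroup.of (e.symm ⟨i, h⟩) else 1
  have hf0 : ∀ x, f0 (e x) = PresentedGroup.of x := by
    intro x
    simp [f0]
  have hf : ∀ r ∈ codeRels (N, L.map (trw e)), FreeGroup.lift f0 r = 1 := by
    rintro r (⟨i, hi, rfl⟩ | ⟨w', hw', rfl⟩)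
    · rw [FreeGroup.lift_apply_of]
      simp only at hi
      simp [f0, not_lt.2 hi]
    · obtain ⟨w, hw, rfl⟩ := List.mem_map.1 hw'
      rw [mk_trw]
      have h1 : (FreeGroup.lift f0).comp (FreeGroup.map (fun x => (e x : ℕ))) =
          PresentedGroup.mk R := by
        ext x
        simp only [MonoidHom.comp_apply, FreeGroup.map.of, FreeGroup.lift_apply_of, hf0]
        rfl
      have h2 := DFunLike.congr_fun h1 (FreeGroup.mk w)
      rw [MonoidHom.comp_apply] at h2
      rw [h2]
      exact PresentedGroup.one_of_mem ⟨w, hw, rfl⟩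
  let g0 : X → CGrp (N, L.map (trw e)) := fun x => PresentedGroup.of (e x : ℕ)
  have hg : ∀ r ∈ R, FreeGroup.lift g0 r = 1 := by
    rintro r ⟨w, hw, rfl⟩
    have h1 : FreeGroup.lift g0 = (PresentedGroup.mk (codeRels (N, L.map (trw e)))).comp
        (FreeGroup.map (fun x => (e x : ℕ))) := by
      ext x
      simp only [MonoidHom.comp_apply, FreeGroup.map.of, FreeGroup.lift_apply_of, g0]
      rfl
    rw [h1, MonoidHom.comp_apply, ← mk_trw]
    exact PresentedGroup.one_of_mem (Or.inr ⟨trw e w, List.mem_map.2 ⟨w, hw, rfl⟩, rfl⟩)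
  refine ⟨MonoidHom.toMulEquiv (PresentedGroup.toGroup hf) (PresentedGroup.toGroup hg) ?_ ?_⟩
  · apply PresentedGroup.ext
    intro i
    simp only [MonoidHom.comp_apply, PresentedGroup.toGroup.of, MonoidHom.id_apply]
    by_cases hi : i < N
    · have : f0 i = PresentedGroup.of (e.symm ⟨i, hi⟩) := by simp [f0, hi]
      rw [this, PresentedGroup.toGroup.of]
      simp [g0]
    · have : f0 i = 1 := by simp [f0, hi]
      rw [this, map_one]
      symm
      exact PresentedGroup.one_of_mem (Or.inl ⟨i, not_lt.1 hi, rfl⟩)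
  · apply PresentedGroup.ext
    intro x
    simp only [MonoidHom.comp_apply, PresentedGroup.toGroup.of, MonoidHom.id_apply, g0, hf0]

end

end Pool.Agent.Q221.Rabin
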