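import Mathlib

set_option autoImplicit false

/-!
# Centralizers in free products; free products are directly indecomposable
-/

namespace Pool.Agent.Q221.Rabin

open Monoid Monoid.CoprodI

section

variable {ι : Type} {M : ι → Type} [∀ i, Group (M i)]

theorem fstIdx_empty (i : ι) : (Word.empty : Word M).fstIdx ≠ some i := by
  simp [Word.fstIdx, Word.empty]

theorem prod_mul_of [DecidableEq ι] [∀ i, DecidableEq (M i)] {i : ι} (a : M i) (ha : a ≠ 1)
    (w : Word M) :
    (∀ k, k ≠ i → w.fstIdx = some k → ((w.prod * of a) • (Word.empty : Word M)).fstIdx = some k) ∧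
    (w.fstIdx = some i → ((w.prod * of a) • (Word.empty : Word M)).fstIdx = some i ∨
      ((w.prod * of a) • (Word.empty : Word M)).fstIdx = none) := by
  have hs : (of a • (Word.empty : Word M)) = Word.cons a Word.empty (fstIdx_empty i) ha := by
    rw [Word.cons_eq_smul]
  induction w using Word.consRecOn with
  | empty =>
    refine ⟨fun k _ h => absurd h (fstIdx_empty k), fun h => absurd h (fstIdx_empty i)⟩
  | cons j m w h1 h2 ih =>
    have e : ((Word.cons m w h1 h2).prod * of a) • (Word.empty : Word M) =
        of m • ((w.prod * of a) • (Word.empty : Word M)) := by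
      rw [Word.prod_cons, mul_assoc, mul_smul]
    rw [e]
    have h3 : (j ≠ i → ((w.prod * of a) • (Word.empty : Word M)).fstIdx ≠ some j) := by
      intro hj
      cases hf : w.fstIdx with
      | none =>
        have hw : w = Word.empty := by
          apply Word.ext
          simpa [Word.fstIdx] using hf
        rw [hw, Word.prod_empty, one_mul, hs, Word.fstIdx_cons]
        exact fun h => hj (Option.some.inj h).symm
      | some k =>
        by_cases hk : k = i
        · subst hk
          rcases ih.2 hf with h | h
          · rw [h]; exact fun h => hj (Option.some.inj h).symm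
          · rw [h]; simp
        · rw [ih.1 k hk hf]
          rw [← hf]; exact h1
    constructor
    · intro k hk hf
      rw [Word.fstIdx_cons] at hf
      obtain rfl := Option.some.inj hf
      rw [← Word.cons_eq_smul (h1 := h3 hk) (h2 := h2), Word.fstIdx_cons]
    · intro hf
      rw [Word.fstIdx_cons] at hf
      obtain rfl := Option.some.inj hf
      cases hf' : w.fstIdx with
      | none =>
        have hw : w = Word.empty := by
          apply Word.ext
          simpa [Word.fstIdx] using hf'
        rw [hw, Word.prod_empty, one_mul, ← mul_smul, ← map_mul]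
        by_cases hm : m * a = 1
        · right
          rw [hm, map_one, one_smul]
          rfl
        · left
          rw [← Word.cons_eq_smul (h1 := fstIdx_empty j) (h2 := hm), Word.fstIdx_cons]
      | some k =>
        have hk : k ≠ j := by
          rintro rfl
          exact h1 hf'
        have h4 := ih.1 k hk hf'
        have h5 : ((w.prod * of a) • (Word.empty : Word M)).fstIdx ≠ some j := by
          rw [h4]; exact fun h => hk (Option.some.inj h)
        left
        rw [← Word.cons_eq_smul (h1 := h5) (h2 := h2), Word.fstIdx_cons]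

/-- The centralizer of a nontrivial element of a factor is contained in the factor. -/
theorem mem_of_comm {i : ι} (a : M i) (ha : a ≠ 1) (g : CoprodI M) (h : g * of a = of a * g) :
    ∃ x : M i, g = of x := by
  classical
  -- decompose `g⁻¹ = of b * tail`
  let p := Word.equivPair i (Word.equiv g⁻¹)
  have hp : g⁻¹ = of p.head * p.tail.prod := by
    rw [← Word.prod_rcons, ← Word.equivPair_symm, Equiv.symm_apply_apply]
    exact (Word.equiv.symm_apply_apply g⁻¹).symm
  have hg : g = (p.tail.prod)⁻¹ * (of p.head)⁻¹ := by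
    rw [← mul_inv_rev, ← hp, inv_inv]
  have h1 : p.tail.prod * of a = of (p.head⁻¹ * a * p.head) * p.tail.prod := by
    rw [hg] at h
    have h2 : of a = (of p.head * (p.tail.prod * of a * (p.tail.prod)⁻¹) * (of p.head)⁻¹ :
        CoprodI M) := by
      have h3 : (p.tail.prod)⁻¹ * (of p.head)⁻¹ * of a =
        of a * ((p.tail.prod)⁻¹ * (of p.head)⁻¹) := h
      calc (of a : CoprodI M) = of p.head * p.tail.prod *
            ((p.tail.prod)⁻¹ * (of p.head)⁻¹ * of a) := by group
        _ = of p.head * p.tail.prod * (of a * ((p.tail.prod)⁻¹ * (of p.head)⁻¹)) := by rw [h3]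
        _ = _ := by group
    rw [map_mul, map_mul, map_inv]
    calc p.tail.prod * of a = (of p.head)⁻¹ * (of p.head * (p.tail.prod * of a *
          (p.tail.prod)⁻¹) * (of p.head)⁻¹) * of p.head * p.tail.prod := by group
      _ = _ := by rw [← h2]
  have ha' : p.head⁻¹ * a * p.head ≠ 1 := by
    intro hc
    apply ha
    have : a = p.head * (p.head⁻¹ * a * p.head) * p.head⁻¹ := by group
    rw [this, hc]; group
  have h2 : ((p.tail.prod * of a) • (Word.empty : Word M)).fstIdx = some i := by
    rw [h1, mul_smul]
    have : p.tail.prod • (Word.empty : Word M) = p.tail := by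
      have := Word.equiv.apply_symm_apply p.tail
      exact this
    rw [this, ← Word.cons_eq_smul (h1 := p.fstIdx_ne) (h2 := ha'), Word.fstIdx_cons]
  have h3 : p.tail = Word.empty := by
    cases hf : p.tail.fstIdx with
    | none =>
      apply Word.ext
      simpa [Word.fstIdx] using hf
    | some k =>
      have hk : k ≠ i := by
        rintro rfl
        exact p.fstIdx_ne hf
      have h4 := (prod_mul_of a ha p.tail).1 k hk hf
      rw [h2] at h4
      exact absurd (Option.some.inj h4).symm hk
  refine ⟨p.head⁻¹, ?_⟩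
  rw [hg, h3, Word.prod_empty, inv_one, one_mul, map_inv]

end

/-- A group which is not generated by two commuting nontrivial endomorphic images. -/
structure Good (Q : Type) [Group Q] : Prop where
  nontriv : ∃ q : Q, q ≠ 1
  indec : ∀ f g : Q →* Q, (∀ x y, f x * g y = g y * f x) → (∀ q, ∃ x y, q = f x * g y) →
    (∀ x, f x = 1) ∨ (∀ y, g y = 1)

theorem of_eq_of {A : Type} [Group A] {b : Bool} {x y : A}
    (h : (of (M := fun _ : Bool => A) (i := b) x) = of (M := fun _ : Bool => A) (i := !b) y) :
    x = 1 := by
  have h1 := congrArg (CoprodI.lift (fun c : Bool =>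
    if c = b then MonoidHom.id A else (1 : A →* A))) h
  simpa using h1

theorem good_coprod {A : Type} [Group A] (hA : ∃ a : A, a ≠ 1) :
    Good (CoprodI (fun _ : Bool => A)) := by
  obtain ⟨α, hα⟩ := hA
  have hof : ∀ (b : Bool) (x : A), x ≠ 1 → (of (M := fun _ : Bool => A) (i := b) x) ≠ 1 := by
    intro b x hx h
    exact hx (of_injective b (h.trans (map_one _).symm))
  refine ⟨⟨of (i := true) α, hof true α hα⟩, ?_⟩
  intro f g hfg hgen
  by_contra hc
  push Not at hc
  obtain ⟨⟨x0, hx0⟩, ⟨y0, hy0⟩⟩ := hc
  -- for each factor, one of the two images meets it nontrivially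
  have key : ∀ b : Bool, (∃ x, ∃ c : A, c ≠ 1 ∧ f x = of (i := b) c) ∨
      (∃ y, ∃ c : A, c ≠ 1 ∧ g y = of (i := b) c) := by
    intro b
    obtain ⟨x, y, hxy⟩ := hgen (of (i := b) α)
    have h1 : f x * of (i := b) α = of (i := b) α * f x := by
      rw [hxy]
      calc f x * (f x * g y) = f x * (g y * f x) := by rw [hfg]
        _ = _ := by group
    have h2 : g y * of (i := b) α = of (i := b) α * g y := by
      rw [hxy]
      calc g y * (f x * g y) = (g y * f x) * g y := by group
        _ = _ := by rw [← hfg]
    obtain ⟨c, hc⟩ := mem_of_comm (M := fun _ : Bool => A) (i := b) α hα _ h1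
    obtain ⟨d, hd⟩ := mem_of_comm (M := fun _ : Bool => A) (i := b) α hα _ h2
    by_cases hc1 : c = 1
    · right
      refine ⟨y, d, ?_, hd⟩
      rintro rfl
      rw [hc, hd, hc1, map_one, one_mul] at hxy
      exact hof b α hα hxy
    · exact Or.inl ⟨x, c, hc1, hc⟩
  have kf : ∀ b : Bool, (∃ x, ∃ c : A, c ≠ 1 ∧ f x = of (i := b) c) → ∀ y, ∃ d : A,
      g y = of (i := b) d := by
    rintro b ⟨x, c, hc, hx⟩ y
    apply mem_of_comm (M := fun _ : Bool => A) (i := b) c hc
    rw [← hx, hfg]
  have kg : ∀ b : Bool, (∃ y, ∃ c : A, c ≠ 1 ∧ g y = of (i := b) c) → ∀ x, ∃ d : A,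
      f x = of (i := b) d := by
    rintro b ⟨y, c, hc, hy⟩ x
    apply mem_of_comm (M := fun _ : Bool => A) (i := b) c hc
    rw [← hy, hfg]
  have two : ∀ z : CoprodI (fun _ : Bool => A), (∃ d : A, z = of (i := true) d) →
      (∃ d : A, z = of (i := false) d) → z = 1 := by
    rintro z ⟨d, rfl⟩ ⟨d', h⟩
    rw [of_eq_of (b := true) h, map_one]
  rcases key true with ht | ht <;> rcases key false with hf | hf
  · exact hy0 (two _ (kf true ht y0) (kf false hf y0))
  · -- `g ⊆ M_true`, `f ⊆ M_false`
    obtain ⟨d, hd⟩ := kf true ht y0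
    have h1 := kg false hf x0
    obtain ⟨c, hc⟩ := h1
    have hc1 : c ≠ 1 := by rintro rfl; exact hx0 (by rw [hc, map_one])
    exact hy0 (two _ ⟨d, hd⟩ (kf false ⟨x0, c, hc1, hc⟩ y0))
  · obtain ⟨d, hd⟩ := kf false hf y0
    obtain ⟨c, hc⟩ := kg true ht x0
    have hc1 : c ≠ 1 := by rintro rfl; exact hx0 (by rw [hc, map_one])
    exact hy0 (two _ (kf true ⟨x0, c, hc1, hc⟩ y0) ⟨d, hd⟩)
  · exact hx0 (two _ (kg true ht x0) (kg false hf x0))

end Pool.Agent.Q221.Rabin
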