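import Pool.Agent.Q221.Rabin.FreeProd

set_option autoImplicit false

/-!
# Integrals of groups; `Q ≀ C₂` has no integral if `Q` is perfect and good
-/

namespace Pool.Agent.Q221.Rabin

universe v

/-- `G` is integrable (with an integral in the universe `v`): there is a group `H` whose commutator
subgroup is isomorphic to `G`. -/
def Integrable (G : Type) [Group G] : Prop :=
  ∃ (H : Type v) (_ : Group H), Nonempty (commutator H ≃* G)

/-- Automorphisms of `Q × Q` permute the two factors. -/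
theorem Good.auto {Q : Type} [Group Q] (hQ : Good Q) (φ : Q × Q ≃* Q × Q) :
    ((∀ q, (φ (q, 1)).2 = 1) ∧ (∀ q, (φ (1, q)).1 = 1)) ∨
      ((∀ q, (φ (q, 1)).1 = 1) ∧ (∀ q, (φ (1, q)).2 = 1)) := by
  let a : Q →* Q := ((MonoidHom.fst Q Q).comp φ.toMonoidHom).comp (MonoidHom.inl Q Q)
  let b : Q →* Q := ((MonoidHom.snd Q Q).comp φ.toMonoidHom).comp (MonoidHom.inl Q Q)
  let c : Q →* Q := ((MonoidHom.fst Q Q).comp φ.toMonoidHom).comp (MonoidHom.inr Q Q)
  let d : Q →* Q := ((MonoidHom.snd Q Q).comp φ.toMonoidHom).comp (MonoidHom.inr Q Q)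
  have ha : ∀ q, a q = (φ (q, 1)).1 := fun q => rfl
  have hb : ∀ q, b q = (φ (q, 1)).2 := fun q => rfl
  have hc : ∀ q, c q = (φ (1, q)).1 := fun q => rfl
  have hd : ∀ q, d q = (φ (1, q)).2 := fun q => rfl
  have h1 : ∀ x y, φ (x, 1) * φ (1, y) = φ (x, y) := fun x y => by rw [← map_mul]; simp
  have h2 : ∀ x y, φ (1, y) * φ (x, 1) = φ (x, y) := fun x y => by rw [← map_mul]; simp
  have hac : (∀ x, a x = 1) ∨ (∀ y, c y = 1) := by
    apply hQ.indec
    · intro x y
      have := (h1 x y).trans (h2 x y).symm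
      exact (Prod.ext_iff.1 this).1
    · intro q
      obtain ⟨⟨x, y⟩, hxy⟩ := φ.surjective (q, 1)
      refine ⟨x, y, ?_⟩
      rw [← h1 x y] at hxy
      exact (Prod.ext_iff.1 hxy).1.symm
  have hbd : (∀ x, b x = 1) ∨ (∀ y, d y = 1) := by
    apply hQ.indec
    · intro x y
      have := (h1 x y).trans (h2 x y).symm
      exact (Prod.ext_iff.1 this).2
    · intro q
      obtain ⟨⟨x, y⟩, hxy⟩ := φ.surjective (1, q)
      refine ⟨x, y, ?_⟩
      rw [← h1 x y] at hxy
      exact (Prod.ext_iff.1 hxy).2.symm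
  obtain ⟨q, hq⟩ := hQ.nontriv
  have h11 : φ ((1 : Q), (1 : Q)) = (1, 1) := map_one φ
  rcases hac with h | h <;> rcases hbd with h' | h'
  · exfalso
    apply hq
    have : φ (q, 1) = φ (1, 1) := by
      apply Prod.ext
      · rw [← ha, h, h11]
      · rw [← hb, h', h11]
    exact (Prod.ext_iff.1 (φ.injective this)).1
  · exact Or.inr ⟨h, h'⟩
  · exact Or.inl ⟨h', h⟩
  · exfalso
    apply hq
    have : φ (1, q) = φ (1, 1) := by
      apply Prod.ext
      · rw [← hc, h, h11]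
      · rw [← hd, h', h11]
    exact (Prod.ext_iff.1 (φ.injective this)).2

/-- Let `F : Q × Q → Γ` be injective with image the commutator subgroup, and let `t` interchange the
two factors. Then `Γ` is not integrable if `Q` is good. -/
theorem not_integrable {Q Γ : Type} [Group Q] [Group Γ] (hQ : Good Q) (F : Q × Q →* Γ)
    (hF : Function.Injective F) (hr : F.range = commutator Γ) (t : Γ)
    (ht : ∀ q, t * F (q, 1) * t⁻¹ = F (1, q)) : ¬ Integrable.{v} Γ := by
  rintro ⟨H, _, ⟨e⟩⟩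
  let j : Γ →* H := (commutator H).subtype.comp e.symm.toMonoidHom
  have hj : Function.Injective j := (Subtype.val_injective).comp e.symm.injective
  have hjr : j.range = commutator H := by
    rw [MonoidHom.range_comp]
    have : e.symm.toMonoidHom.range = ⊤ := MonoidHom.range_eq_top.2 e.symm.surjective
    rw [this, ← MonoidHom.range_eq_map, Subgroup.range_subtype]
  let E : Q × Q →* H := j.comp F
  have hE : Function.Injective E := hj.comp hF
  have hEr : E.range = ⁅commutator H, commutator H⁆ := by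
    rw [MonoidHom.range_comp, hr, commutator_def, Subgroup.map_commutator,
      ← MonoidHom.range_eq_map, hjr]
  have hnorm : E.range.Normal := by rw [hEr]; infer_instance
  -- conjugation
  have hφ : ∀ h : H, ∃ φ : Q × Q ≃* Q × Q, ∀ x, E (φ x) = h * E x * h⁻¹ := by
    intro h
    let ε : Q × Q ≃* E.range := MonoidHom.ofInjective hE
    refine ⟨(ε.trans (MulAut.conjNormal h)).trans ε.symm, fun x => ?_⟩
    have h1 : ∀ y : E.range, E (ε.symm y) = y := by
      intro y
      have := congrArg Subtype.val (ε.apply_symm_apply y)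
      exact this
    simp only [MulEquiv.trans_apply]
    rw [h1, MulAut.conjNormal_apply]
    rfl
  -- the two types of elements
  let P : H → Prop := fun h => (∀ q, ∃ q', h * E (q, 1) * h⁻¹ = E (q', 1)) ∧
    (∀ q, ∃ q', h * E (1, q) * h⁻¹ = E (1, q'))
  let S : H → Prop := fun h => (∀ q, ∃ q', h * E (q, 1) * h⁻¹ = E (1, q')) ∧
    (∀ q, ∃ q', h * E (1, q) * h⁻¹ = E (q', 1))
  have hPS : ∀ h, P h ∨ S h := by
    intro h
    obtain ⟨φ, hφ⟩ := hφ h
    rcases hQ.auto φ with ⟨h1, h2⟩ | ⟨h1, h2⟩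
    · left
      refine ⟨fun q => ⟨(φ (q, 1)).1, ?_⟩, fun q => ⟨(φ (1, q)).2, ?_⟩⟩
      · rw [← hφ]
        congr 1
        exact Prod.ext rfl (h1 q)
      · rw [← hφ]
        congr 1
        exact Prod.ext (h2 q) rfl
    · right
      refine ⟨fun q => ⟨(φ (q, 1)).2, ?_⟩, fun q => ⟨(φ (1, q)).1, ?_⟩⟩
      · rw [← hφ]
        congr 1
        exact Prod.ext (h1 q) rfl
      · rw [← hφ]
        congr 1
        exact Prod.ext rfl (h2 q)
  obtain ⟨q₀, hq₀⟩ := hQ.nontriv
  have hnot : ∀ h, P h → ¬ S h := by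
    rintro h ⟨h1, -⟩ ⟨h2, -⟩
    obtain ⟨q', hq'⟩ := h1 q₀
    obtain ⟨q'', hq''⟩ := h2 q₀
    rw [hq'] at hq''
    have h3 := hE hq''
    have h4 : q' = 1 := (Prod.ext_iff.1 h3).1
    rw [h4] at hq'
    have h5 : E (q₀, 1) = 1 := by
      have : E (q₀, 1) = h⁻¹ * (h * E (q₀, 1) * h⁻¹) * h := by group
      rw [this, hq', show ((1 : Q), (1 : Q)) = 1 from rfl, map_one]; group
    exact hq₀ (Prod.ext_iff.1 (hE (h5.trans (map_one E).symm))).1
  have conj_mul : ∀ h k x : H, (h * k) * x * (h * k)⁻¹ = h * (k * x * k⁻¹) * h⁻¹ := by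
    intro h k x; group
  have hPP : ∀ h k, P h → P k → P (h * k) := by
    rintro h k ⟨h1, h2⟩ ⟨k1, k2⟩
    constructor
    · intro q
      obtain ⟨q', hq'⟩ := k1 q
      rw [conj_mul, hq']; exact h1 q'
    · intro q
      obtain ⟨q', hq'⟩ := k2 q
      rw [conj_mul, hq']; exact h2 q'
  have hSS : ∀ h k, S h → S k → P (h * k) := by
    rintro h k ⟨h1, h2⟩ ⟨k1, k2⟩
    constructor
    · intro q
      obtain ⟨q', hq'⟩ := k1 q
      rw [conj_mul, hq']; exact h2 q'
    · intro q
      obtain ⟨q', hq'⟩ := k2 q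
      rw [conj_mul, hq']; exact h1 q'
  have hPS' : ∀ h k, P h → S k → S (h * k) := by
    rintro h k ⟨h1, h2⟩ ⟨k1, k2⟩
    constructor
    · intro q
      obtain ⟨q', hq'⟩ := k1 q
      rw [conj_mul, hq']; exact h2 q'
    · intro q
      obtain ⟨q', hq'⟩ := k2 q
      rw [conj_mul, hq']; exact h1 q'
  have hSP : ∀ h k, S h → P k → S (h * k) := by
    rintro h k ⟨h1, h2⟩ ⟨k1, k2⟩
    constructor
    · intro q
      obtain ⟨q', hq'⟩ := k1 q
      rw [conj_mul, hq']; exact h1 q'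
    · intro q
      obtain ⟨q', hq'⟩ := k2 q
      rw [conj_mul, hq']; exact h2 q'
  have hP1 : P 1 := ⟨fun q => ⟨q, by group⟩, fun q => ⟨q, by group⟩⟩
  have hPinv : ∀ h, P h → P h⁻¹ := by
    intro h hh
    rcases hPS h⁻¹ with h1 | h1
    · exact h1
    · exfalso
      have := hPS' h h⁻¹ hh h1
      rw [mul_inv_cancel] at this
      exact hnot 1 hP1 this
  have hSinv : ∀ h, S h → S h⁻¹ := by
    intro h hh
    rcases hPS h⁻¹ with h1 | h1
    · exfalso
      have := hSP h h⁻¹ hh h1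
      rw [mul_inv_cancel] at this
      exact hnot 1 hP1 this
    · exact h1
  let T : Subgroup H :=
    { carrier := {h | P h}
      mul_mem' := fun {a b} ha hb => hPP a b ha hb
      one_mem' := hP1
      inv_mem' := fun {a} ha => hPinv a ha }
  have hT : commutator H ≤ T := by
    rw [commutator_def, Subgroup.commutator_le]
    intro h _ k _
    change P (h * k * h⁻¹ * k⁻¹)
    rcases hPS h with h1 | h1 <;> rcases hPS k with k1 | k1
    · exact hPP _ _ (hPP _ _ (hPP _ _ h1 k1) (hPinv _ h1)) (hPinv _ k1)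
    · exact hSS _ _ (hSP _ _ (hPS' _ _ h1 k1) (hPinv _ h1)) (hSinv _ k1)
    · exact hPP _ _ (hSS _ _ (hSP _ _ h1 k1) (hSinv _ h1)) (hPinv _ k1)
    · exact hSS _ _ (hPS' _ _ (hSS _ _ h1 k1) (hSinv _ h1)) (hSinv _ k1)
  have hjt : P (j t) := by
    apply hT
    rw [← hjr]
    exact ⟨t, rfl⟩
  obtain ⟨q', hq'⟩ := hjt.1 q₀
  have h1 : j t * E (q₀, 1) * (j t)⁻¹ = E (1, q₀) := by
    change j t * j (F (q₀, 1)) * (j t)⁻¹ = j (F (1, q₀))
    rw [← map_mul, ← map_inv, ← map_mul, ht]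
  rw [h1] at hq'
  exact hq₀ (Prod.ext_iff.1 (hE hq')).2

end Pool.Agent.Q221.Rabin
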