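import Pool.Agent.Q221.Rabin.Rab

set_option autoImplicit false

/-!
# The presented group `A_w`
-/

namespace Pool.Agent.Q221.Rabin

/-- Generators of `A_w`. -/
inductive RG (n : ℕ) : Type
  | x (i : Fin n)
  | r (i : Fin n)
  | u
  | v
  | y

/-- The generators as a sum. -/
def rgEquiv (n : ℕ) : RG n ≃ (Fin n ⊕ Fin n ⊕ Fin 3) where
  toFun g := match g with
    | .x i => .inl i
    | .r i => .inr (.inl i)
    | .u => .inr (.inr 0)
    | .v => .inr (.inr 1)
    | .y => .inr (.inr 2)
  invFun g := match g with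
    | .inl i => .x i
    | .inr (.inl i) => .r i
    | .inr (.inr 0) => .u
    | .inr (.inr 1) => .v
    | .inr (.inr 2) => .y
  left_inv g := by cases g <;> rfl
  right_inv g := by
    rcases g with i | i | i
    · rfl
    · rfl
    · fin_cases i <;> rfl

instance (n : ℕ) : Finite (RG n) := Finite.of_equiv _ (rgEquiv n).symm

section

variable {n : ℕ}

open FreeGroup (of)

/-- The element `z = w v⁴ w⁻¹ v⁻⁴`. -/
def zg (w : FreeGroup (Fin n)) : FreeGroup (RG n) :=
  FreeGroup.map RG.x w * of RG.v ^ 4 * (FreeGroup.map RG.x w)⁻¹ * (of RG.v ^ 4)⁻¹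

/-- The relator depending on `w`. -/
def zrel (w : FreeGroup (Fin n)) : FreeGroup (RG n) :=
  zg w * of RG.y * zg w * (of RG.y * zg w * of RG.y)⁻¹

/-- The relators not depending on `w`. -/
def fixedA (S : Set (FreeGroup (Fin n))) : Set (FreeGroup (RG n)) :=
  (FreeGroup.map RG.x '' S) ∪
  {of RG.u * of RG.v * of RG.u * (of RG.v * of RG.u * of RG.v)⁻¹} ∪
  Set.range (fun i => of RG.u * of (RG.r i) * of RG.u * (of (RG.r i) * of RG.u * of (RG.r i))⁻¹) ∪
  Set.range (fun i => of (RG.r i) ^ 4 * (of (RG.x i) * of RG.v ^ 4)⁻¹) ∪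
  {of RG.y ^ 4 * (of RG.u)⁻¹}

/-- The relators of `A_w`. -/
def relA (S : Set (FreeGroup (Fin n))) (w : FreeGroup (Fin n)) : Set (FreeGroup (RG n)) :=
  fixedA S ∪ {zrel w}

theorem finite_fixedA {S : Set (FreeGroup (Fin n))} (hS : S.Finite) : (fixedA S).Finite := by
  refine ((((hS.image _).union (Set.finite_singleton _)).union (Set.finite_range _)).union
    (Set.finite_range _)).union (Set.finite_singleton _)

theorem relA_iff {M : Type} [Group M] (S : Set (FreeGroup (Fin n))) (w : FreeGroup (Fin n))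
    (f : RG n → M) : (∀ s ∈ relA S w, FreeGroup.lift f s = 1) ↔
      Rab S w (fun i => f (.x i)) (fun i => f (.r i)) (f .u) (f .v) (f .y) := by
  have hm : ∀ g : FreeGroup (Fin n), FreeGroup.lift f (FreeGroup.map RG.x g) =
      FreeGroup.lift (fun i => f (.x i)) g := by
    intro g
    have : (FreeGroup.lift f).comp (FreeGroup.map RG.x) = FreeGroup.lift (fun i => f (.x i)) := by
      ext i; simp
    rw [← this]; rfl
  constructor
  · intro h
    refine ⟨?_, ?_, ?_, ?_, ?_, ?_⟩
    · intro s hs
      rw [← hm]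
      exact h _ (Or.inl (Or.inl (Or.inl (Or.inl (Or.inl ⟨s, hs, rfl⟩)))))
    · have := h _ (Or.inl (Or.inl (Or.inl (Or.inl (Or.inr rfl)))))
      simpa only [map_mul, map_inv, map_pow, FreeGroup.lift_apply_of, mul_inv_eq_one] using this
    · intro i
      have := h _ (Or.inl (Or.inl (Or.inl (Or.inr ⟨i, rfl⟩))))
      simpa only [map_mul, map_inv, map_pow, FreeGroup.lift_apply_of, mul_inv_eq_one] using this
    · intro i
      have := h _ (Or.inl (Or.inl (Or.inr ⟨i, rfl⟩)))
      simpa only [map_mul, map_inv, map_pow, FreeGroup.lift_apply_of, mul_inv_eq_one] using this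
    · have := h _ (Or.inr rfl)
      simp only [zrel, zg, map_mul, map_inv, map_pow, hm, FreeGroup.lift_apply_of,
        mul_inv_eq_one] at this
      exact this
    · have := h _ (Or.inl (Or.inr rfl))
      simpa only [map_mul, map_inv, map_pow, FreeGroup.lift_apply_of, mul_inv_eq_one] using this
  · rintro h s ((((((⟨s, hs, rfl⟩ | rfl) | ⟨i, rfl⟩) | ⟨i, rfl⟩) | rfl)) | rfl)
    · rw [hm]; exact h.rel s hs
    · simpa only [map_mul, map_inv, map_pow, FreeGroup.lift_apply_of, mul_inv_eq_one] using h.uv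
    · simpa only [map_mul, map_inv, map_pow, FreeGroup.lift_apply_of, mul_inv_eq_one] using h.ur i
    · simpa only [map_mul, map_inv, map_pow, FreeGroup.lift_apply_of, mul_inv_eq_one] using h.r4 i
    · simpa only [map_mul, map_inv, map_pow, FreeGroup.lift_apply_of, mul_inv_eq_one] using h.y4
    · simp only [zrel, zg, map_mul, map_inv, map_pow, hm, FreeGroup.lift_apply_of,
        mul_inv_eq_one]
      exact h.zy

/-- The group `A_w`. -/
abbrev AG (S : Set (FreeGroup (Fin n))) (w : FreeGroup (Fin n)) : Type := PresentedGroup (relA S w)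

theorem AG_rab (S : Set (FreeGroup (Fin n))) (w : FreeGroup (Fin n)) :
    Rab S w (fun i => (PresentedGroup.of (RG.x i) : AG S w)) (fun i => PresentedGroup.of (RG.r i))
      (PresentedGroup.of RG.u) (PresentedGroup.of RG.v) (PresentedGroup.of RG.y) := by
  rw [← relA_iff (f := fun g => (PresentedGroup.of g : AG S w))]
  intro s hs
  have h1 : FreeGroup.lift (fun g => (PresentedGroup.of g : AG S w)) = PresentedGroup.mk _ := by
    ext g; simp; rfl
  rw [h1]
  exact PresentedGroup.one_of_mem hs

theorem AG_trivial_of {S : Set (FreeGroup (Fin n))} {w : FreeGroup (Fin n)}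
    (hw : w ∈ Subgroup.normalClosure S) (g : RG n) : (PresentedGroup.of g : AG S w) = 1 := by
  obtain ⟨h1, h2, h3, h4, h5⟩ := (AG_rab S w).collapse_of_mem hw
  cases g
  · exact h1 _
  · exact h2 _
  · exact h3
  · exact h4
  · exact h5

theorem hom_comm_trivial {S : Set (FreeGroup (Fin n))} {w : FreeGroup (Fin n)} {M : Type}
    [CommGroup M] (φ : AG S w →* M) : φ = 1 := by
  have h : ∀ s ∈ relA S w, FreeGroup.lift (fun g => φ (PresentedGroup.of g)) s = 1 := by
    intro s hs
    have h1 : FreeGroup.lift (fun g => φ (PresentedGroup.of g)) =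
        φ.comp (PresentedGroup.mk (relA S w)) := by
      ext g; simp; rfl
    rw [h1, MonoidHom.comp_apply, PresentedGroup.one_of_mem hs, map_one]
  rw [relA_iff] at h
  obtain ⟨h1, h2, h3, h4, h5⟩ := h.collapse_comm
  apply PresentedGroup.ext
  intro g
  cases g
  · exact h1 _
  · exact h2 _
  · exact h3
  · exact h4
  · exact h5

theorem AG_nontrivial {S : Set (FreeGroup (Fin n))} {w : FreeGroup (Fin n)}
    (hw : w ∉ Subgroup.normalClosure S) : ∃ a : AG S w, a ≠ 1 := by
  obtain ⟨M, _, x, r, u, v, y, h, hu, -⟩ := exists_rab S w hw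
  let f : RG n → M := fun g => match g with
    | .x i => x i
    | .r i => r i
    | .u => u
    | .v => v
    | .y => y
  have hf : ∀ s ∈ relA S w, FreeGroup.lift f s = 1 := by
    rw [relA_iff]
    exact h
  refine ⟨PresentedGroup.of RG.u, fun hc => hu ?_⟩
  have h1 := congrArg (PresentedGroup.toGroup hf) hc
  rwa [PresentedGroup.toGroup.of, map_one] at h1

end

end Pool.Agent.Q221.Rabin
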