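import Pool.Agent.Q221.Rabin.PresA
import Pool.Agent.Q221.Rabin.Integral

set_option autoImplicit false

/-!
# The group `(A_w * A_w) ≀ C₂`
-/

namespace Pool.Agent.Q221.Rabin

open Monoid

section

variable {n : ℕ}

/-- Generators of `(A_w * A_w) ≀ C₂`. -/
abbrev GG (n : ℕ) : Type := Option (Bool × RG n)

open FreeGroup (of)

/-- The relators not depending on `w`. -/
def fixedG (S : Set (FreeGroup (Fin n))) : Set (FreeGroup (GG n)) :=
  (⋃ b : Bool, FreeGroup.map (fun g => some (b, g)) '' fixedA S) ∪ {of none * of none} ∪
  Set.range (fun p : (Bool × RG n) × (Bool × RG n) =>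
    of (some p.1) * (of none * of (some p.2) * (of none)⁻¹) *
      ((of none * of (some p.2) * (of none)⁻¹) * of (some p.1))⁻¹)

/-- The relators of `(A_w * A_w) ≀ C₂`. -/
def relG (S : Set (FreeGroup (Fin n))) (w : FreeGroup (Fin n)) : Set (FreeGroup (GG n)) :=
  fixedG S ∪ Set.range (fun b : Bool => FreeGroup.map (fun g => some (b, g)) (zrel w))

theorem finite_fixedG {S : Set (FreeGroup (Fin n))} (hS : S.Finite) : (fixedG S).Finite := by
  refine ((Set.finite_iUnion fun b => (finite_fixedA hS).image _).union
    (Set.finite_singleton _)).union (Set.finite_range _)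

theorem relG_iff {M : Type} [Group M] (S : Set (FreeGroup (Fin n))) (w : FreeGroup (Fin n))
    (f : GG n → M) : (∀ s ∈ relG S w, FreeGroup.lift f s = 1) ↔
      (∀ b, ∀ s ∈ relA S w, FreeGroup.lift (fun g => f (some (b, g))) s = 1) ∧
      f none * f none = 1 ∧
      ∀ p p' : Bool × RG n, f (some p) * (f none * f (some p') * (f none)⁻¹) =
        (f none * f (some p') * (f none)⁻¹) * f (some p) := by
  have hm : ∀ (b : Bool) (g : FreeGroup (RG n)),
      FreeGroup.lift f (FreeGroup.map (fun g => some (b, g)) g) =
      FreeGroup.lift (fun g => f (some (b, g))) g := by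
    intro b g
    have : (FreeGroup.lift f).comp (FreeGroup.map (fun g => some (b, g))) =
        FreeGroup.lift (fun g => f (some (b, g))) := by
      ext i; simp
    rw [← this]; rfl
  constructor
  · intro h
    refine ⟨?_, ?_, ?_⟩
    · rintro b s (hs | hs)
      · rw [← hm]
        exact h _ (Or.inl (Or.inl (Or.inl (Set.mem_iUnion.2 ⟨b, s, hs, rfl⟩))))
      · rw [← hm]
        have : s = zrel w := hs
        rw [this]
        exact h _ (Or.inr ⟨b, rfl⟩)
    · have := h _ (Or.inl (Or.inl (Or.inr rfl)))
      simpa only [map_mul, map_inv, map_pow, FreeGroup.lift_apply_of, mul_inv_eq_one] using this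
    · intro p p'
      have := h _ (Or.inl (Or.inr ⟨(p, p'), rfl⟩))
      simpa only [map_mul, map_inv, map_pow, FreeGroup.lift_apply_of, mul_inv_eq_one] using this
  · rintro ⟨h1, h2, h3⟩ s (((hs | rfl) | ⟨⟨p, p'⟩, rfl⟩) | ⟨b, rfl⟩)
    · obtain ⟨b, s, hs', rfl⟩ := Set.mem_iUnion.1 hs
      rw [hm]
      exact h1 b s (Or.inl hs')
    · simpa only [map_mul, map_inv, map_pow, FreeGroup.lift_apply_of, mul_inv_eq_one] using h2
    · simpa only [map_mul, map_inv, map_pow, FreeGroup.lift_apply_of, mul_inv_eq_one] using h3 p p'
    · simp only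
      rw [hm]
      exact h1 b _ (Or.inr rfl)

variable (S : Set (FreeGroup (Fin n))) (w : FreeGroup (Fin n))

/-- The group `(A_w * A_w) ≀ C₂`. -/
abbrev GamG : Type := PresentedGroup (relG S w)

/-- `A_w * A_w`. -/
abbrev QG : Type := CoprodI (fun _ : Bool => AG S w)

/-- The generator `t`. -/
def tG : GamG S w := PresentedGroup.of none

theorem GamG_rel : (∀ b, ∀ s ∈ relA S w,
    FreeGroup.lift (fun g => (PresentedGroup.of (some (b, g)) : GamG S w)) s = 1) ∧
      tG S w * tG S w = 1 ∧
      ∀ p p' : Bool × RG n, (PresentedGroup.of (some p) : GamG S w) *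
        (tG S w * PresentedGroup.of (some p') * (tG S w)⁻¹) =
        (tG S w * PresentedGroup.of (some p') * (tG S w)⁻¹) * PresentedGroup.of (some p) := by
  have h := (relG_iff S w (fun g => (PresentedGroup.of g : GamG S w))).1 (by
    intro s hs
    have h1 : FreeGroup.lift (fun g => (PresentedGroup.of g : GamG S w)) =
        PresentedGroup.mk _ := by
      ext g; simp; rfl
    rw [h1]
    exact PresentedGroup.one_of_mem hs)
  exact h

/-- The map `A_w * A_w → Γ`. -/
def psi : QG S w →* GamG S w :=
  CoprodI.lift fun b => PresentedGroup.toGroup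
    (f := fun g => (PresentedGroup.of (some (b, g)) : GamG S w)) ((GamG_rel S w).1 b)

theorem psi_of (b : Bool) (g : RG n) : psi S w (CoprodI.of (i := b) (PresentedGroup.of g)) =
    PresentedGroup.of (some (b, g)) := by
  simp [psi]

theorem t_inv : (tG S w)⁻¹ = tG S w := inv_eq_of_mul_eq_one_left (GamG_rel S w).2.1

/-- Conjugation by `t` after `psi`. -/
def psit : QG S w →* GamG S w := (MulAut.conj (tG S w)).toMonoidHom.comp (psi S w)

theorem psit_apply (q : QG S w) : psit S w q = tG S w * psi S w q * (tG S w)⁻¹ := rfl

theorem QG_induction {p : QG S w → Prop} (h1 : p 1) (hof : ∀ b (g : RG n),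
    p (CoprodI.of (i := b) (PresentedGroup.of g : AG S w))) (hinv : ∀ x, p x → p x⁻¹)
    (hmul : ∀ x y, p x → p y → p (x * y)) (q : QG S w) : p q := by
  let T : Subgroup (QG S w) :=
    { carrier := {x | p x}
      mul_mem' := fun {a b} ha hb => hmul a b ha hb
      one_mem' := h1
      inv_mem' := fun {a} ha => hinv a ha }
  have hT : ∀ b, (⊤ : Subgroup (AG S w)) ≤ T.comap (CoprodI.of (i := b)) := by
    intro b
    rw [← PresentedGroup.closure_range_of, Subgroup.closure_le]
    rintro _ ⟨g, rfl⟩
    exact hof b g
  change q ∈ T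
  induction q using CoprodI.induction_on with
  | one => exact T.one_mem
  | of b a => exact hT b (Subgroup.mem_top a)
  | mul x y hx hy => exact T.mul_mem hx hy

theorem psi_comm (a b : QG S w) : Commute (psi S w a) (psit S w b) := by
  revert b
  induction a using QG_induction with
  | h1 => intro b; rw [map_one]; exact Commute.one_left _
  | hof c g =>
    intro b
    induction b using QG_induction with
    | h1 => rw [map_one]; exact Commute.one_right _
    | hof c' g' =>
      rw [psit_apply, psi_of, psi_of]
      exact (GamG_rel S w).2.2 (c, g) (c', g')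
    | hinv x hx => rw [map_inv]; exact hx.inv_right
    | hmul x y hx hy => rw [map_mul]; exact hx.mul_right hy
  | hinv x hx => intro b; rw [map_inv]; exact (hx b).inv_left
  | hmul x y hx hy => intro b; rw [map_mul]; exact (hx b).mul_left (hy b)

/-- The map `(a, b) ↦ psi a * (t * psi b * t⁻¹)`. -/
def FG : QG S w × QG S w →* GamG S w :=
  MonoidHom.noncommCoprod (psi S w) (psit S w) (psi_comm S w)

theorem FG_apply (x : QG S w × QG S w) : FG S w x = psi S w x.1 * psit S w x.2 := rfl

theorem FG_swap (a b : QG S w) : tG S w * FG S w (a, b) * (tG S w)⁻¹ = FG S w (b, a) := by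
  rw [FG_apply, FG_apply, (psi_comm S w b a).eq]
  simp only [psit_apply]
  have ht := (GamG_rel S w).2.1
  rw [t_inv]
  calc tG S w * (psi S w a * (tG S w * psi S w b * tG S w)) * tG S w
      = tG S w * psi S w a * tG S w * psi S w b * (tG S w * tG S w) := by group
    _ = _ := by rw [ht, mul_one]

theorem mem_FG (g : GamG S w) : g ∈ (FG S w).range ∨ g * tG S w ∈ (FG S w).range := by
  have ht := (GamG_rel S w).2.1
  have hsome : ∀ p : Bool × RG n, (PresentedGroup.of (some p) : GamG S w) ∈ (FG S w).range := by
    rintro ⟨b, g⟩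
    refine ⟨(CoprodI.of (i := b) (PresentedGroup.of g), 1), ?_⟩
    rw [FG_apply, psi_of, map_one, mul_one]
  have hconj : ∀ g ∈ (FG S w).range, tG S w * g * tG S w ∈ (FG S w).range := by
    rintro _ ⟨⟨a, b⟩, rfl⟩
    refine ⟨(b, a), ?_⟩
    rw [← FG_swap, t_inv]
  -- left multiplication by `t`
  have ht' : ∀ g : GamG S w, (g ∈ (FG S w).range ∨ g * tG S w ∈ (FG S w).range) →
      (tG S w * g ∈ (FG S w).range ∨ tG S w * g * tG S w ∈ (FG S w).range) := by
    rintro g (h | h)
    · exact Or.inr (hconj g h)
    · left
      have := hconj _ h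
      have e : tG S w * (g * tG S w) * tG S w = tG S w * g * (tG S w * tG S w) := by group
      rwa [e, ht, mul_one] at this
  have hmul : ∀ x ∈ (FG S w).range, ∀ g : GamG S w,
      (g ∈ (FG S w).range ∨ g * tG S w ∈ (FG S w).range) →
      (x * g ∈ (FG S w).range ∨ x * g * tG S w ∈ (FG S w).range) := by
    rintro x hx g (h | h)
    · exact Or.inl (Subgroup.mul_mem _ hx h)
    · right
      rw [mul_assoc]
      exact Subgroup.mul_mem _ hx h
  have key : ∀ L : List (GG n × Bool), (PresentedGroup.mk (relG S w) (FreeGroup.mk L)) ∈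
      (FG S w).range ∨ (PresentedGroup.mk (relG S w) (FreeGroup.mk L)) * tG S w ∈
      (FG S w).range := by
    intro L
    induction L with
    | nil =>
      left
      rw [← FreeGroup.one_eq_mk, map_one]
      exact Subgroup.one_mem _
    | cons c L ih =>
      have h1 : FreeGroup.mk (c :: L) = FreeGroup.mk [c] * FreeGroup.mk L := by
        rw [FreeGroup.mul_mk]; rfl
      rw [h1, map_mul]
      obtain ⟨c | c, b⟩ := c
      · have h2 : PresentedGroup.mk (relG S w) (FreeGroup.mk [((none : GG n), b)]) = tG S w := by
          cases b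
          · have : FreeGroup.mk [((none : GG n), false)] = (FreeGroup.of none)⁻¹ := rfl
            rw [this, map_inv]
            exact t_inv S w
          · rfl
        rw [h2]
        exact ht' _ ih
      · apply hmul _ _ _ ih
        cases b
        · have : FreeGroup.mk [((some c : GG n), false)] = (FreeGroup.of (some c))⁻¹ := rfl
          rw [this, map_inv]
          exact Subgroup.inv_mem _ (hsome c)
        · exact hsome c
  obtain ⟨x, rfl⟩ := PresentedGroup.mk_surjective _ g
  classical
  have := key x.toWord
  rwa [FreeGroup.mk_toWord] at this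

/-- Left multiplication by `q` on the first half of `Q × Bool`. -/
def LQ : QG S w →* Equiv.Perm (QG S w × Bool) where
  toFun q :=
    { toFun := fun x => (if x.2 then q * x.1 else x.1, x.2)
      invFun := fun x => (if x.2 then q⁻¹ * x.1 else x.1, x.2)
      left_inv := by rintro ⟨x, _ | _⟩ <;> simp
      right_inv := by rintro ⟨x, _ | _⟩ <;> simp }
  map_one' := by ext ⟨x, _ | _⟩ <;> simp
  map_mul' a b := by ext ⟨x, _ | _⟩ <;> simp [mul_assoc]

/-- Interchanging the halves. -/
def swapQ : Equiv.Perm (QG S w × Bool) where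
  toFun x := (x.1, !x.2)
  invFun x := (x.1, !x.2)
  left_inv := by rintro ⟨x, _ | _⟩ <;> simp
  right_inv := by rintro ⟨x, _ | _⟩ <;> simp

/-- The images of the generators in the permutation group. -/
def genT : GG n → Equiv.Perm (QG S w × Bool)
  | none => swapQ S w
  | some (b, g) => LQ S w (CoprodI.of (i := b) (PresentedGroup.of g))

theorem genT_rel : ∀ s ∈ relG S w, FreeGroup.lift (genT S w) s = 1 := by
  rw [relG_iff]
  refine ⟨?_, ?_, ?_⟩
  · intro b s hs
    have h1 : FreeGroup.lift (fun g => genT S w (some (b, g))) =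
        ((LQ S w).comp (CoprodI.of (i := b))).comp (PresentedGroup.mk (relA S w)) := by
      apply FreeGroup.ext_hom
      intro g; simp [genT]; rfl
    rw [h1, MonoidHom.comp_apply, PresentedGroup.one_of_mem hs, map_one]
  · ext ⟨x, _ | _⟩ <;> simp [genT, swapQ]
  · rintro ⟨b, g⟩ ⟨b', g'⟩
    have : (swapQ S w)⁻¹ = swapQ S w := rfl
    simp only [genT, this]
    ext ⟨x, _ | _⟩ <;> simp [swapQ, LQ, Equiv.Perm.mul_apply]

/-- The permutation representation of `Γ`. -/
def theta : GamG S w →* Equiv.Perm (QG S w × Bool) := PresentedGroup.toGroup (genT_rel S w)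

theorem theta_psi (q : QG S w) : theta S w (psi S w q) = LQ S w q := by
  induction q using QG_induction with
  | h1 => simp
  | hof b g => rw [psi_of]; simp [theta, genT]
  | hinv x hx => rw [map_inv, map_inv, map_inv, hx]
  | hmul x y hx hy => rw [map_mul, map_mul, map_mul, hx, hy]

theorem theta_t : theta S w (tG S w) = swapQ S w := by
  simp [theta, tG, genT]

theorem FG_injective : Function.Injective (FG S w) := by
  have h : ∀ x : QG S w × QG S w, ∀ y : QG S w × Bool, theta S w (FG S w x) y =
      (if y.2 then x.1 * y.1 else x.2 * y.1, y.2) := by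
    intro x y
    rw [FG_apply, psit_apply, map_mul, map_mul, map_mul, map_inv, theta_psi, theta_psi, theta_t]
    have : (swapQ S w)⁻¹ = swapQ S w := rfl
    rw [this]
    obtain ⟨y, _ | _⟩ := y <;> simp [swapQ, LQ, Equiv.Perm.mul_apply]
  intro x x' hxx
  have h1 := h x (1, true)
  have h2 := h x (1, false)
  rw [hxx, h] at h1 h2
  simp only [if_true, Prod.mk.injEq, and_true, mul_one, Bool.false_eq_true, if_false] at h1 h2
  exact Prod.ext h1.symm h2.symm

theorem AG_perfect : commutator (AG S w) = ⊤ := by
  have h := hom_comm_trivial (Abelianization.of (G := AG S w))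
  rw [← Abelianization.ker_of, h]
  exact MonoidHom.ker_one

theorem QG_perfect : commutator (QG S w) = ⊤ := by
  rw [eq_top_iff]
  intro q _
  have hT : ∀ b, (⊤ : Subgroup (AG S w)) ≤ (commutator (QG S w)).comap (CoprodI.of (i := b)) := by
    intro b
    rw [← Subgroup.map_le_iff_le_comap, ← AG_perfect, commutator_def, Subgroup.map_commutator,
      commutator_def]
    exact Subgroup.commutator_mono le_top le_top
  induction q using CoprodI.induction_on with
  | one => exact Subgroup.one_mem _
  | of b a => exact hT b (Subgroup.mem_top a)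
  | mul x y hx hy => exact Subgroup.mul_mem _ (hx trivial) (hy trivial)

/-- The sign homomorphism. -/
def sgn : GamG S w →* Multiplicative (ZMod 2) :=
  PresentedGroup.toGroup (f := fun g => match g with
    | none => Multiplicative.ofAdd 1
    | some _ => 1) (by
      rw [relG_iff]
      refine ⟨?_, (show Multiplicative.ofAdd (1 : ZMod 2) * Multiplicative.ofAdd (1 : ZMod 2) = 1
        from by decide), ?_⟩
      · intro b s _
        have : FreeGroup.lift (fun _ : RG n => (1 : Multiplicative (ZMod 2))) = 1 := by
          ext; simp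
        change FreeGroup.lift (fun _ : RG n => (1 : Multiplicative (ZMod 2))) s = 1
        rw [this]; rfl
      · intro p p'
        simp)

theorem sgn_t : sgn S w (tG S w) = Multiplicative.ofAdd 1 := by
  simp [sgn, tG]

theorem sgn_psi (q : QG S w) : sgn S w (psi S w q) = 1 := by
  induction q using QG_induction with
  | h1 => simp
  | hof b g => rw [psi_of]; simp [sgn]
  | hinv x hx => rw [map_inv, map_inv, hx, inv_one]
  | hmul x y hx hy => rw [map_mul, map_mul, hx, hy, one_mul]

theorem sgn_FG (x : QG S w × QG S w) : sgn S w (FG S w x) = 1 := by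
  rw [FG_apply, psit_apply, map_mul, map_mul, map_mul, map_inv, sgn_psi, sgn_psi]
  simp

theorem range_FG : (FG S w).range = commutator (GamG S w) := by
  apply le_antisymm
  · have h1 : (FG S w).range ≤ (commutator (QG S w × QG S w)).map (FG S w) := by
      have : commutator (QG S w × QG S w) = ⊤ := by
        rw [commutator_def, ← Subgroup.top_prod_top, Subgroup.commutator_prod_prod]
        rw [← commutator_def, QG_perfect]
      rw [this, ← MonoidHom.range_eq_map]
    refine h1.trans ?_
    rw [commutator_def, Subgroup.map_commutator, commutator_def]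
    exact Subgroup.commutator_mono le_top le_top
  · have h1 : commutator (GamG S w) ≤ (sgn S w).ker := Abelianization.commutator_subset_ker _
    intro g hg
    have h2 := h1 hg
    rcases mem_FG S w g with h | h
    · exact h
    · exfalso
      obtain ⟨x, hx⟩ := h
      have h3 := sgn_FG S w x
      rw [hx, map_mul, (MonoidHom.mem_ker).1 h2, sgn_t, one_mul] at h3
      exact absurd h3 (by decide)

universe v

/-- If `w ≠ 1` in `⟨X | S⟩` then `Γ` is not integrable. -/
theorem GamG_not_integrable (hw : w ∉ Subgroup.normalClosure S) :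
    ¬ Integrable.{v} (GamG S w) := by
  apply not_integrable (good_coprod (AG_nontrivial hw)) (FG S w) (FG_injective S w)
    (range_FG S w) (tG S w)
  intro q
  exact FG_swap S w q 1

end

end Pool.Agent.Q221.Rabin
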