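import Pool.Agent.Q221.Rabin.Wreath

set_option autoImplicit false

/-!
# The Adian–Rabin construction

For a presentation `⟨X | S⟩` of a group `U` and a word `w`, the group `A_w` has the generators
`x_i, r_i` (`i : X`), `u, v, y`, the relators `S` (in the `x_i`) and the relations
`u v u = v u v`, `u r_i u = r_i u r_i`, `r_i ^ 4 = x_i v ^ 4`, `z y z = y z y`, `y ^ 4 = u`, where
`z = w v ^ 4 w⁻¹ v⁻⁴`. If `w = 1` in `U` then `A_w` is trivial, otherwise `U` embeds in `A_w`.
-/

namespace Pool.Agent.Q221.Rabin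

/-- The relations of `A_w`. -/
structure Rab {X M : Type} [Group M] (S : Set (FreeGroup X)) (w : FreeGroup X) (x r : X → M)
    (u v y : M) : Prop where
  rel : ∀ s ∈ S, FreeGroup.lift x s = 1
  uv : u * v * u = v * u * v
  ur : ∀ i, u * r i * u = r i * u * r i
  r4 : ∀ i, r i ^ 4 = x i * v ^ 4
  zy : (FreeGroup.lift x w * v ^ 4 * (FreeGroup.lift x w)⁻¹ * (v ^ 4)⁻¹) * y *
    (FreeGroup.lift x w * v ^ 4 * (FreeGroup.lift x w)⁻¹ * (v ^ 4)⁻¹) =
    y * (FreeGroup.lift x w * v ^ 4 * (FreeGroup.lift x w)⁻¹ * (v ^ 4)⁻¹) * y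
  y4 : y ^ 4 = u

theorem braid_one {M : Type} [Group M] {p q : M} (h : p * q * p = q * p * q) (hp : p = 1) :
    q = 1 := by
  subst hp
  simpa using h

theorem Rab.collapse {X M : Type} [Group M] {S : Set (FreeGroup X)} {w : FreeGroup X}
    {x r : X → M} {u v y : M} (h : Rab S w x r u v y)
    (hz : FreeGroup.lift x w * v ^ 4 * (FreeGroup.lift x w)⁻¹ * (v ^ 4)⁻¹ = 1) :
    (∀ i, x i = 1) ∧ (∀ i, r i = 1) ∧ u = 1 ∧ v = 1 ∧ y = 1 := by
  have hy : y = 1 := braid_one h.zy hz
  have hu : u = 1 := by rw [← h.y4, hy, one_pow]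
  have hv : v = 1 := braid_one h.uv hu
  have hr : ∀ i, r i = 1 := fun i => braid_one (h.ur i) hu
  refine ⟨fun i => ?_, hr, hu, hv, hy⟩
  have h1 := h.r4 i
  rw [hr i, hv] at h1
  simpa using h1.symm

theorem Rab.collapse_of_mem {X M : Type} [Group M] {S : Set (FreeGroup X)} {w : FreeGroup X}
    {x r : X → M} {u v y : M} (h : Rab S w x r u v y) (hw : w ∈ Subgroup.normalClosure S) :
    (∀ i, x i = 1) ∧ (∀ i, r i = 1) ∧ u = 1 ∧ v = 1 ∧ y = 1 := by
  apply h.collapse
  have h1 : FreeGroup.lift x w = 1 := by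
    have h2 : Subgroup.normalClosure S ≤ (FreeGroup.lift x).ker :=
      Subgroup.normalClosure_le_normal fun s hs => h.rel s hs
    exact h2 hw
  rw [h1]; simp

theorem Rab.collapse_comm {X M : Type} [CommGroup M] {S : Set (FreeGroup X)} {w : FreeGroup X}
    {x r : X → M} {u v y : M} (h : Rab S w x r u v y) :
    (∀ i, x i = 1) ∧ (∀ i, r i = 1) ∧ u = 1 ∧ v = 1 ∧ y = 1 := by
  apply h.collapse
  rw [mul_comm (FreeGroup.lift x w) (v ^ 4)]
  group

/-- If `w ≠ 1` in `U` then there is a model of the relations in which `U` embeds. -/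
theorem exists_rab {n : ℕ} (S : Set (FreeGroup (Fin n))) (w : FreeGroup (Fin n))
    (hw : w ∉ Subgroup.normalClosure S) : ∃ (M : Type) (_ : Group M) (x r : Fin n → M) (u v y : M),
      Rab S w x r u v y ∧ u ≠ 1 ∧ ∀ g, FreeGroup.lift x g = 1 → g ∈ Subgroup.normalClosure S := by
  classical
  let U := PresentedGroup S
  have hmk : ∀ g : FreeGroup (Fin n), (PresentedGroup.mk S g : U) = 1 ↔
      g ∈ Subgroup.normalClosure S := fun g => PresentedGroup.mk_eq_one_iff
  have hw1 : (PresentedGroup.mk S w : U) ≠ 1 := fun h => hw ((hmk w).1 h)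
  -- the base group
  obtain ⟨K1, _, ι1, u1, h1, hfree⟩ := adjoin_free (G := WG U)
  let a : Fin n → WG U := fun i => actU U (PresentedGroup.of i)
  have hlift : ∀ g : FreeGroup (Fin n), FreeGroup.lift a g = actU U (PresentedGroup.mk S g) := by
    intro g
    have : FreeGroup.lift a = (actU U).comp (PresentedGroup.mk S) := by
      ext i; simp [a]; rfl
    rw [this]; rfl
  let c : WG U := cU
  -- roots `r_i`
  obtain ⟨K2, _, ι2, r2, h2, h2'⟩ := adjoin_roots n K1 (fun _ => u1) (fun i => ι1 (a i * c))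
    (fun i => (hfree _ (mul_cU_infinite _)).1)
  -- the root `v`
  obtain ⟨K3, _, ι3, v3, h3, h3', h3''⟩ := adjoin_root (ι2 u1) (ι2 (ι1 c))
    (((hfree _ cU_infinite).1).map ι2 h2)
  -- the root `y`
  have hz := ((hfree _ (comm_cU_infinite (PresentedGroup.mk S w : U) hw1)).2).map
    (ι3.comp ι2) (h3.comp h2)
  obtain ⟨K4, _, ι4, y4, h4, h4', h4''⟩ := adjoin_root _ _ hz
  let ι : WG U →* K4 := ι4.comp (ι3.comp (ι2.comp ι1))
  have hι : Function.Injective ι := h4.comp (h3.comp (h2.comp h1))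
  let x : Fin n → K4 := fun i => ι (a i)
  have hx : ∀ g, FreeGroup.lift x g = ι (actU U (PresentedGroup.mk S g)) := by
    intro g
    have : FreeGroup.lift x = ι.comp (FreeGroup.lift a) := by ext i; simp [x]
    rw [this, MonoidHom.comp_apply, hlift]
  have hv4 : (ι4 v3) ^ 4 = ι c := by
    rw [← map_pow, h3']; rfl
  refine ⟨K4, inferInstance, x, fun i => ι4 (ι3 (r2 i)), ι4 (ι3 (ι2 u1)), ι4 v3, y4, ?_, ?_, ?_⟩
  · refine ⟨?_, ?_, ?_, ?_, ?_, ?_⟩
    · intro s hs
      rw [hx, (hmk s).2 (Subgroup.subset_normalClosure hs), map_one, map_one]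
    · rw [← map_mul, ← map_mul, h3'', map_mul, map_mul]
    · intro i
      have := (h2' i).2
      rw [← map_mul, ← map_mul, ← map_mul, ← map_mul, this]
      simp only [map_mul]
    · intro i
      rw [← map_pow, ← map_pow, (h2' i).1, hv4, map_mul, map_mul, map_mul, map_mul]
      rfl
    · rw [hx, hv4]
      have e : ι (actU U (PresentedGroup.mk S w)) * ι c * (ι (actU U (PresentedGroup.mk S w)))⁻¹ *
          (ι c)⁻¹ = ι (actU U (PresentedGroup.mk S w) * c * (actU U (PresentedGroup.mk S w))⁻¹ *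
          c⁻¹) := by
        rw [map_mul ι, map_mul ι, map_mul ι, map_inv ι, map_inv ι]
      rw [e]
      exact h4''
    · exact h4'
  · intro h
    have h5 : u1 = 1 := by
      apply h2
      apply h3
      apply h4
      rw [h, map_one, map_one, map_one]
    have h6 := (hfree _ (cU_infinite (U := U))).1
    have h7 : FreeGroup.lift (fun b : Bool => if b then u1 else ι1 cU) (FreeGroup.of true) =
        FreeGroup.lift (fun b : Bool => if b then u1 else ι1 cU) 1 := by simp [h5]
    exact FreeGroup.of_ne_one true (h6 h7)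
  · intro g hg
    rw [hx] at hg
    exact (hmk g).1 (actU_injective (hι (by rw [hg, map_one, map_one])))

end Pool.Agent.Q221.Rabin
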