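import Mathlib

set_option autoImplicit false

/-!
# A pair `p, v` of permutations with `p v p = v p v` and `p, v ^ 4` free
-/

namespace Pool.Agent.Q221.Rabin

/-- Nonzero integer vectors. -/
abbrev NZ : Type := {v : ℤ × ℤ // v ≠ 0}

/-- The shear `(x, y) ↦ (x + y, y)`. -/
def p0 : Equiv.Perm NZ where
  toFun v := ⟨(v.1.1 + v.1.2, v.1.2), by
    intro h
    apply v.2
    simp only [Prod.mk_eq_zero] at h
    ext <;> simp <;> omega⟩
  invFun v := ⟨(v.1.1 - v.1.2, v.1.2), by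
    intro h
    apply v.2
    simp only [Prod.mk_eq_zero] at h
    ext <;> simp <;> omega⟩
  left_inv v := by ext <;> simp
  right_inv v := by ext <;> simp

/-- The shear `(x, y) ↦ (x, y - x)`. -/
def v0 : Equiv.Perm NZ where
  toFun v := ⟨(v.1.1, v.1.2 - v.1.1), by
    intro h
    apply v.2
    simp only [Prod.mk_eq_zero] at h
    ext <;> simp <;> omega⟩
  invFun v := ⟨(v.1.1, v.1.2 + v.1.1), by
    intro h
    apply v.2
    simp only [Prod.mk_eq_zero] at h
    ext <;> simp <;> omega⟩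
  left_inv v := by ext <;> simp
  right_inv v := by ext <;> simp

theorem braid0 : p0 * v0 * p0 = v0 * p0 * v0 := by
  ext v <;> simp [p0, v0, Equiv.Perm.mul_apply]

theorem v0_pow4 (v : NZ) : ((v0 ^ 4) v).1 = (v.1.1, v.1.2 - 4 * v.1.1) := by
  simp only [pow_succ, pow_zero, one_mul, Equiv.Perm.mul_apply]
  simp only [v0, Equiv.coe_fn_mk]
  ext <;> simp <;> ring

theorem v0_pow4_inv (v : NZ) : (((v0 ^ 4)⁻¹ : Equiv.Perm NZ) v).1 = (v.1.1, v.1.2 + 4 * v.1.1) := by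
  obtain ⟨u, rfl⟩ : ∃ u, v = (v0 ^ 4) u := ⟨(v0 ^ 4)⁻¹ v, by simp⟩
  have h : ((v0 ^ 4)⁻¹ : Equiv.Perm NZ) ((v0 ^ 4) u) = u := by
    rw [← Equiv.Perm.mul_apply, inv_mul_cancel, Equiv.Perm.one_apply]
  rw [h, v0_pow4]
  ext <;> simp

/-- The free pair. -/
def ab0 : Bool → Equiv.Perm NZ
  | true => p0
  | false => v0 ^ 4

/-- attracting sets -/
def XX : Bool → Set NZ
  | true => {v | v.1.2 * v.1.2 ≤ 2 * (v.1.1 * v.1.2)}
  | false => {v | v.1.1 * v.1.2 ≤ -(2 * (v.1.1 * v.1.1))}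

/-- repelling sets -/
def YY : Bool → Set NZ
  | true => {v | v.1.2 * v.1.2 < -(2 * (v.1.1 * v.1.2))}
  | false => {v | 2 * (v.1.1 * v.1.1) < v.1.1 * v.1.2}

theorem sq_pos_of {x y : ℤ} (h : ((x, y) : ℤ × ℤ) ≠ 0) : 0 < x * x + y * y := by
  by_contra hc
  apply h
  have hx : x * x = 0 := by nlinarith [mul_self_nonneg x, mul_self_nonneg y]
  have hy : y * y = 0 := by nlinarith [mul_self_nonneg x, mul_self_nonneg y]
  rw [mul_self_eq_zero.1 hx, mul_self_eq_zero.1 hy]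
  rfl

theorem free0 : Function.Injective (FreeGroup.lift ab0) := by
  apply FreeGroup.injective_lift_of_ping_pong (a := ab0) (X := XX) (Y := YY)
  · rintro (_ | _)
    · exact ⟨⟨(0, 1), by decide⟩, by simp [XX]⟩
    · exact ⟨⟨(1, 0), by decide⟩, by simp [XX]⟩
  · rintro (_ | _) (_ | _) hij
    · exact absurd rfl hij
    · rw [Function.onFun, Set.disjoint_left]
      rintro ⟨⟨x, y⟩, h0⟩ h1 h2
      simp only [XX, Set.mem_ofPred_eq] at h1 h2
      have := sq_pos_of h0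
      nlinarith [mul_self_nonneg x, mul_self_nonneg y]
    · rw [Function.onFun, Set.disjoint_left]
      rintro ⟨⟨x, y⟩, h0⟩ h1 h2
      simp only [XX, Set.mem_ofPred_eq] at h1 h2
      have := sq_pos_of h0
      nlinarith [mul_self_nonneg x, mul_self_nonneg y]
    · exact absurd rfl hij
  · rintro (_ | _) (_ | _) hij
    · exact absurd rfl hij
    · rw [Function.onFun, Set.disjoint_left]
      rintro ⟨⟨x, y⟩, h0⟩ h1 h2
      simp only [YY, Set.mem_ofPred_eq] at h1 h2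
      nlinarith [mul_self_nonneg x, mul_self_nonneg y]
    · rw [Function.onFun, Set.disjoint_left]
      rintro ⟨⟨x, y⟩, h0⟩ h1 h2
      simp only [YY, Set.mem_ofPred_eq] at h1 h2
      nlinarith [mul_self_nonneg x, mul_self_nonneg y]
    · exact absurd rfl hij
  · rintro (_ | _) (_ | _) <;> rw [Set.disjoint_left] <;> rintro ⟨⟨x, y⟩, h0⟩ h1 h2 <;>
      simp only [XX, YY, Set.mem_ofPred_eq] at h1 h2
    · nlinarith [mul_self_nonneg x, mul_self_nonneg y]
    · nlinarith [mul_self_nonneg (y + 2 * x)]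
    · nlinarith [mul_self_nonneg (y - 2 * x)]
    · nlinarith [mul_self_nonneg x, mul_self_nonneg y]
  · rintro (_ | _) _ ⟨v, hv, rfl⟩
    · simp only [YY, XX, Set.mem_compl_iff, Set.mem_ofPred_eq, not_lt] at hv ⊢
      have h := v0_pow4 v
      change ((v0 ^ 4) v).1.1 * ((v0 ^ 4) v).1.2 ≤ -(2 * (((v0 ^ 4) v).1.1 * ((v0 ^ 4) v).1.1))
      rw [h]
      simp only
      nlinarith
    · simp only [YY, XX, Set.mem_compl_iff, Set.mem_ofPred_eq, not_lt] at hv ⊢
      change (p0 v).1.2 * (p0 v).1.2 ≤ 2 * ((p0 v).1.1 * (p0 v).1.2)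
      simp only [p0, Equiv.coe_fn_mk]
      nlinarith
  · rintro (_ | _) _ ⟨v, hv, rfl⟩
    · simp only [YY, XX, Set.mem_compl_iff, Set.mem_ofPred_eq, not_le] at hv ⊢
      have h := v0_pow4_inv v
      change 2 * ((((v0 ^ 4)⁻¹ : Equiv.Perm NZ) v).1.1 * (((v0 ^ 4)⁻¹ : Equiv.Perm NZ) v).1.1) <
        (((v0 ^ 4)⁻¹ : Equiv.Perm NZ) v).1.1 * (((v0 ^ 4)⁻¹ : Equiv.Perm NZ) v).1.2
      rw [h]
      simp only
      nlinarith
    · simp only [YY, XX, Set.mem_compl_iff, Set.mem_ofPred_eq, not_le] at hv ⊢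
      change (p0.symm v).1.2 * (p0.symm v).1.2 < -(2 * ((p0.symm v).1.1 * (p0.symm v).1.2))
      simp only [p0, Equiv.coe_fn_symm_mk]
      nlinarith

end Pool.Agent.Q221.Rabin
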