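import Pool.Agent.Q221.Rabin.PresG
import Pool.Agent.Q221.Rabin.Code
import Pool.Agent.Helper270.WPB

set_option autoImplicit false

/-!
# Integrability of finitely presented groups is undecidable
-/

namespace Pool.Agent.Q221.Rabin

open Monoid

universe v

theorem Integrable.congr {G G' : Type} [Group G] [Group G'] (e : G ≃* G') (h : Integrable.{v} G) :
    Integrable.{v} G' := by
  obtain ⟨H, _, ⟨f⟩⟩ := h
  exact ⟨H, inferInstance, ⟨f.trans e⟩⟩

theorem integrable_C2 : Integrable.{v} (Multiplicative (ZMod 2)) := by
  let D := DihedralGroup 4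
  let H := ULift.{v} D
  let z : H := ULift.up (DihedralGroup.r 2)
  have hz : orderOf z = 2 := by
    apply orderOf_eq_prime
    · apply ULift.ext; decide
    · intro h
      have := congrArg ULift.down h
      exact absurd this (by decide)
  have h1 : commutator H = Subgroup.zpowers z := by
    apply le_antisymm
    · rw [commutator_def, Subgroup.commutator_le]
      rintro ⟨a⟩ _ ⟨b⟩ _
      have h2 : ∀ a b : D, a * b * a⁻¹ * b⁻¹ = 1 ∨ a * b * a⁻¹ * b⁻¹ = DihedralGroup.r 2 := by
        decide
      rw [commutatorElement_def]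
      rcases h2 a b with h | h
      · have : (ULift.up a * ULift.up b * (ULift.up a)⁻¹ * (ULift.up b)⁻¹ : H) = 1 :=
          ULift.ext _ _ h
        rw [this]
        exact Subgroup.one_mem _
      · have : (ULift.up a * ULift.up b * (ULift.up a)⁻¹ * (ULift.up b)⁻¹ : H) = z :=
          ULift.ext _ _ h
        rw [this]
        exact Subgroup.mem_zpowers z
    · rw [Subgroup.zpowers_le]
      have : z = (ULift.up (DihedralGroup.sr 0) * ULift.up (DihedralGroup.r 1) *
          (ULift.up (DihedralGroup.sr 0))⁻¹ * (ULift.up (DihedralGroup.r 1))⁻¹ : H) := by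
        apply ULift.ext
        decide
      rw [this, ← commutatorElement_def]
      exact Subgroup.commutator_mem_commutator (Subgroup.mem_top _) (Subgroup.mem_top _)
  have h2 : Nat.card (commutator H) = 2 := by
    rw [h1, Nat.card_zpowers, hz]
  have h3 : Nat.card (Multiplicative (ZMod 2)) = 2 := by simp
  have : Fact (Nat.Prime 2) := ⟨Nat.prime_two⟩
  exact ⟨H, inferInstance, ⟨mulEquivOfPrimeCardEq h2 h3⟩⟩

section

variable {n : ℕ} (S : Set (FreeGroup (Fin n))) (w : FreeGroup (Fin n))

theorem psi_trivial (hw : w ∈ Subgroup.normalClosure S) (q : QG S w) : psi S w q = 1 := by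
  induction q using QG_induction with
  | h1 => simp
  | hof b g => rw [AG_trivial_of hw, map_one, map_one]
  | hinv x hx => rw [map_inv, hx, inv_one]
  | hmul x y hx hy => rw [map_mul, hx, hy, one_mul]

/-- If `w = 1` in `⟨X | S⟩` then `Γ` is integrable. -/
theorem GamG_integrable (hw : w ∈ Subgroup.normalClosure S) : Integrable.{v} (GamG S w) := by
  have h1 : ∀ g : GamG S w, g = 1 ∨ g = tG S w := by
    have h2 : ∀ g ∈ (FG S w).range, g = 1 := by
      rintro _ ⟨x, rfl⟩
      rw [FG_apply, psit_apply, psi_trivial S w hw, psi_trivial S w hw]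
      group
    intro g
    rcases mem_FG S w g with h | h
    · exact Or.inl (h2 g h)
    · right
      have := h2 _ h
      rw [mul_eq_one_iff_eq_inv, t_inv] at this
      exact this
  have hinj : Function.Injective (sgn S w) := by
    rw [injective_iff_map_eq_one]
    intro g hg
    rcases h1 g with h | h
    · exact h
    · rw [h, sgn_t] at hg
      exact absurd hg (by decide)
  have hsurj : Function.Surjective (sgn S w) := by
    have : ∀ z : Multiplicative (ZMod 2), z = 1 ∨ z = Multiplicative.ofAdd 1 := by decide
    intro z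
    rcases this z with rfl | rfl
    · exact ⟨1, map_one _⟩
    · exact ⟨tG S w, sgn_t S w⟩
  exact Integrable.congr (MulEquiv.ofBijective (sgn S w) ⟨hinj, hsurj⟩).symm integrable_C2

end

section code

variable {m : ℕ}

/-- The relators depending on `w`, as words. -/
def zw (b : Bool) (w : List (Fin m × Bool)) : List (GG m × Bool) :=
  let z : List (GG m × Bool) := w.map (fun p => (some (b, RG.x p.1), p.2)) ++
    List.replicate 4 (some (b, RG.v), true) ++
    FreeGroup.invRev (w.map (fun p => ((some (b, RG.x p.1) : GG m), p.2))) ++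
    FreeGroup.invRev (List.replicate 4 ((some (b, RG.v) : GG m), true))
  z ++ [(some (b, RG.y), true)] ++ z ++
    FreeGroup.invRev ([(some (b, RG.y), true)] ++ z ++ [(some (b, RG.y), true)])

theorem mk_zw (b : Bool) (w : List (Fin m × Bool)) : FreeGroup.mk (zw b w) =
    FreeGroup.map (fun g => some (b, g)) (zrel (FreeGroup.mk w)) := by
  have h1 : FreeGroup.mk (w.map (fun p => ((some (b, RG.x p.1) : GG m), p.2))) =
      FreeGroup.map (fun g => some (b, g)) (FreeGroup.map RG.x (FreeGroup.mk w)) := by
    rw [FreeGroup.map.mk, FreeGroup.map.mk, List.map_map]; rfl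
  have h2 : FreeGroup.mk (List.replicate 4 ((some (b, RG.v) : GG m), true)) =
      FreeGroup.of (some (b, RG.v)) ^ 4 := rfl
  have h3 : FreeGroup.mk [((some (b, RG.y) : GG m), true)] = FreeGroup.of (some (b, RG.y)) := rfl
  simp only [zw, ← FreeGroup.mul_mk, ← FreeGroup.inv_mk, h1, h2, h3, zrel, zg, map_mul, map_inv,
    map_pow, FreeGroup.map.of]

/-- The same with numbers as letters. -/
def zwN (cx : Fin m → ℕ) (cv cy : ℕ) (w : List (Fin m × Bool)) : List (ℕ × Bool) :=
  let z : List (ℕ × Bool) := w.map (fun p => (cx p.1, p.2)) ++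
    List.replicate 4 (cv, true) ++
    FreeGroup.invRev (w.map (fun p => (cx p.1, p.2))) ++
    FreeGroup.invRev (List.replicate 4 (cv, true))
  z ++ [(cy, true)] ++ z ++ FreeGroup.invRev ([(cy, true)] ++ z ++ [(cy, true)])

theorem trw_append {X : Type} {N : ℕ} (e : X ≃ Fin N) (u v : List (X × Bool)) :
    trw e (u ++ v) = trw e u ++ trw e v := by simp [trw]

theorem trw_invRev {X : Type} {N : ℕ} (e : X ≃ Fin N) (u : List (X × Bool)) :
    trw e (FreeGroup.invRev u) = FreeGroup.invRev (trw e u) := by
  simp [trw, FreeGroup.invRev, List.map_reverse, Function.comp_def]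

theorem trw_zw {N : ℕ} (e : GG m ≃ Fin N) (b : Bool) (w : List (Fin m × Bool)) :
    trw e (zw b w) = zwN (fun i => (e (some (b, RG.x i)) : ℕ)) (e (some (b, RG.v)))
      (e (some (b, RG.y))) w := by
  have h1 : trw e (w.map (fun p => ((some (b, RG.x p.1) : GG m), p.2))) =
      w.map (fun p => ((e (some (b, RG.x p.1)) : ℕ), p.2)) := by
    simp [trw]
  have h2 : trw e (List.replicate 4 ((some (b, RG.v) : GG m), true)) =
      List.replicate 4 ((e (some (b, RG.v)) : ℕ), true) := rfl
  have h3 : trw e [((some (b, RG.y) : GG m), true)] = [((e (some (b, RG.y)) : ℕ), true)] := rfl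
  simp only [zw, zwN, trw_append, trw_invRev, h1, h2, h3]

theorem invRev_primrec : Primrec (fun w : List (ℕ × Bool) => FreeGroup.invRev w) := by
  have h : Primrec (fun w : List (ℕ × Bool) => (w.map fun p => (p.1, !p.2)).reverse) :=
    Primrec.list_reverse.comp (Primrec.list_map Primrec.id
      ((Primrec.fst.comp Primrec.snd).pair (Primrec.not.comp (Primrec.snd.comp Primrec.snd))).to₂)
  exact h

theorem zwN_primrec (cx : Fin m → ℕ) (cv cy : ℕ) : Primrec (zwN cx cv cy) := by
  have h0 : Primrec (fun p : Fin m × Bool => (cx p.1, p.2)) := Primrec.dom_finite _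
  have h1 : Primrec (fun w : List (Fin m × Bool) => w.map (fun p => (cx p.1, p.2))) :=
    Primrec.list_map Primrec.id (h0.comp Primrec.snd).to₂
  have hz : Primrec (fun w : List (Fin m × Bool) => w.map (fun p => (cx p.1, p.2)) ++
      List.replicate 4 (cv, true) ++ FreeGroup.invRev (w.map (fun p => (cx p.1, p.2))) ++
      FreeGroup.invRev (List.replicate 4 (cv, true))) :=
    Primrec.list_append.comp (Primrec.list_append.comp (Primrec.list_append.comp h1
      (Primrec.const _)) (invRev_primrec.comp h1)) (Primrec.const _)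
  exact Primrec.list_append.comp (Primrec.list_append.comp (Primrec.list_append.comp hz
    (Primrec.const _)) hz) (invRev_primrec.comp (Primrec.list_append.comp
      (Primrec.list_append.comp (Primrec.const _) hz) (Primrec.const _)))

end code

/-- There is no algorithm deciding integrability of finitely presented groups. -/
theorem integrable_undecidable : ¬ ComputablePred fun P : PCode => Integrable.{v} (CGrp P) := by
  classical
  intro hdec
  obtain ⟨m, R, W, hW, hn⟩ := Pool.Agent.Helper270.WP.word_problem
  apply hn
  have : Fintype (GG m) := Fintype.ofFinite _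
  let e : GG m ≃ Fin (Fintype.card (GG m)) := Fintype.equivFin _
  let fx : List (List (GG m × Bool)) :=
    (finite_fixedG (R.finite_toSet)).toFinset.toList.map fun g => g.toWord
  let L : List (Fin m × Bool) → List (List (GG m × Bool)) := fun w => fx ++ [zw false w, zw true w]
  let cd : List (Fin m × Bool) → PCode := fun w => (Fintype.card (GG m), (L w).map (trw e))
  have hset : ∀ w, {g : FreeGroup (GG m) | ∃ u ∈ L w, g = FreeGroup.mk u} =
      relG (R : Set (FreeGroup (Fin m))) (FreeGroup.mk w) := by
    intro w
    ext g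
    simp only [L, fx, Set.mem_ofPred_eq, List.mem_append, List.mem_map, Finset.mem_toList,
      Set.Finite.mem_toFinset, List.mem_cons, List.not_mem_nil, or_false]
    constructor
    · rintro ⟨u, (⟨g', hg', rfl⟩ | rfl | rfl), rfl⟩
      · rw [FreeGroup.mk_toWord]; exact Or.inl hg'
      · exact Or.inr ⟨false, (mk_zw false w).symm⟩
      · exact Or.inr ⟨true, (mk_zw true w).symm⟩
    · rintro (hg | ⟨b, rfl⟩)
      · exact ⟨_, Or.inl ⟨g, hg, rfl⟩, FreeGroup.mk_toWord.symm⟩
      · cases b
        · exact ⟨_, Or.inr (Or.inl rfl), (mk_zw false w).symm⟩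
        · exact ⟨_, Or.inr (Or.inr rfl), (mk_zw true w).symm⟩
  have hiff : ∀ w, Integrable.{v} (CGrp (cd w)) ↔
      FreeGroup.mk w ∈ Subgroup.normalClosure (R : Set (FreeGroup (Fin m))) := by
    intro w
    obtain ⟨φ⟩ := code_equiv e (L w)
    rw [hset w] at φ
    constructor
    · intro h
      by_contra hc
      exact GamG_not_integrable _ _ hc (Integrable.congr φ h)
    · intro h
      exact Integrable.congr φ.symm (GamG_integrable _ _ h)
  have hcd : Computable cd := by
    have h1 : cd = fun w => (Fintype.card (GG m), fx.map (trw e) ++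
        [zwN (fun i => (e (some (false, RG.x i)) : ℕ)) (e (some (false, RG.v)))
          (e (some (false, RG.y))) w, zwN (fun i => (e (some (true, RG.x i)) : ℕ))
          (e (some (true, RG.v))) (e (some (true, RG.y))) w]) := by
      funext w
      simp only [cd, L, List.map_append, List.map_cons, List.map_nil, trw_zw]
    rw [h1]
    apply Primrec.to_comp
    exact Primrec.pair (Primrec.const _) (Primrec.list_append.comp (Primrec.const _)
      (Primrec.list_cons.comp (zwN_primrec _ _ _) (Primrec.list_cons.comp (zwN_primrec _ _ _)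
        (Primrec.const _))))
  exact ComputablePred.computable_of_manyOneReducible
    ⟨fun k => cd (W k), hcd.comp hW, fun k => (hiff (W k)).symm⟩ hdec

end Pool.Agent.Q221.Rabin
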