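import Pool.Agent.Q221.Rabin.Adjoin

set_option autoImplicit false

/-!
# A group containing `U` and an element `c` such that `c`, `x c` and `[w, c]` have infinite order
-/

namespace Pool.Agent.Q221.Rabin

variable (U : Type) [Group U]

/-- The permutations of the set of functions `U → ℤ`. -/
abbrev WG : Type := Equiv.Perm (U → ℤ)

/-- The action of `U`. -/
def actU : U →* WG U where
  toFun g :=
    { toFun := fun f a => f (g⁻¹ * a)
      invFun := fun f a => f (g * a)
      left_inv := fun f => by funext a; simp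
      right_inv := fun f => by funext a; simp }
  map_one' := by ext f a; simp
  map_mul' g h := by ext f a; simp [mul_assoc]

/-- Translation by a function. -/
def trU (h : U → ℤ) : WG U where
  toFun f := f + h
  invFun f := f - h
  left_inv f := by funext a; simp
  right_inv f := by funext a; simp

variable {U}

theorem trU_mul (h k : U → ℤ) : trU U h * trU U k = trU U (k + h) := by
  ext f a; simp [trU, Equiv.Perm.mul_apply, add_assoc]

theorem trU_inv (h : U → ℤ) : (trU U h)⁻¹ = trU U (-h) := by
  rw [inv_eq_iff_mul_eq_one, trU_mul]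
  ext f a; simp [trU]

theorem trU_zpow (h : U → ℤ) (n : ℤ) : trU U h ^ n = trU U (n • h) := by
  have hn : ∀ n : ℕ, trU U h ^ n = trU U ((n : ℤ) • h) := by
    intro n
    induction n with
    | zero => ext f a; simp [trU]
    | succ n ih =>
      rw [pow_succ, ih, trU_mul]
      congr 1
      push_cast
      rw [add_smul, one_smul, add_comm]
  obtain ⟨n, rfl | rfl⟩ := n.eq_nat_or_neg
  · rw [zpow_natCast, hn]
  · rw [zpow_neg, zpow_natCast, hn, trU_inv, neg_smul]

theorem trU_infinite (h : U → ℤ) (hh : h ≠ 0) (n : ℤ) (hn : trU U h ^ n = 1) : n = 0 := by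
  rw [trU_zpow] at hn
  have h1 : (n • h : U → ℤ) = 0 := by
    have := congrArg (fun e : WG U => e 0) hn
    simpa [trU] using this
  obtain ⟨a, ha⟩ := Function.ne_iff.1 hh
  have h2 := congrFun h1 a
  simp only [Pi.smul_apply, smul_eq_mul, Pi.zero_apply, mul_eq_zero] at h2
  exact h2.resolve_right ha

theorem actU_tr (g : U) (h : U → ℤ) : actU U g * trU U h * (actU U g)⁻¹ =
    trU U (fun a => h (g⁻¹ * a)) := by
  rw [mul_inv_eq_iff_eq_mul]
  ext f a
  simp [actU, trU, Equiv.Perm.mul_apply]

open Classical in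
/-- The translation by `δ_1`. -/
noncomputable def cU : WG U := trU U (Pi.single 1 1)

theorem cU_infinite (n : ℤ) (hn : (cU : WG U) ^ n = 1) : n = 0 := by
  classical
  apply trU_infinite _ _ n hn
  intro h
  have := congrFun h (1 : U)
  simp at this

theorem mul_cU_infinite (g : U) (n : ℤ) (hn : (actU U g * cU) ^ n = 1) : n = 0 := by
  classical
  -- all values stay nonnegative and the value at `g` is positive
  obtain ⟨x, hx⟩ : ∃ x : WG U, x = actU U g * cU := ⟨_, rfl⟩
  rw [← hx] at hn
  have h1 : ∀ m : ℕ, (∀ a, 0 ≤ (x ^ m) 0 a) ∧ (1 ≤ m → 1 ≤ (x ^ m) 0 g) := by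
    intro m
    induction m with
    | zero => exact ⟨fun a => by simp, fun h => by omega⟩
    | succ m ih =>
      have e : ∀ a, (x ^ (m + 1)) 0 a = (x ^ m) 0 (g⁻¹ * a) +
          (Pi.single 1 1 : U → ℤ) (g⁻¹ * a) := by
        intro a
        rw [pow_succ', Equiv.Perm.mul_apply, hx, Equiv.Perm.mul_apply]
        simp only [actU, cU, trU, MonoidHom.coe_mk, OneHom.coe_mk, Equiv.coe_fn_mk, Pi.add_apply]
      constructor
      · intro a
        rw [e]
        have h2 := ih.1 (g⁻¹ * a)
        have h3 : (0 : ℤ) ≤ (Pi.single 1 1 : U → ℤ) (g⁻¹ * a) := by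
          by_cases h : g⁻¹ * a = 1
          · rw [h]; simp
          · simp [h]
        omega
      · intro _
        rw [e]
        have h2 := ih.1 (g⁻¹ * g)
        have h3 : (Pi.single 1 1 : U → ℤ) (g⁻¹ * g) = 1 := by simp
        omega
  have h2 : ∀ m : ℕ, x ^ m = 1 → m = 0 := by
    intro m hm
    by_contra hc
    have h3 := (h1 m).2 (by omega)
    rw [hm] at h3
    simp at h3
  obtain ⟨m, rfl | rfl⟩ := n.eq_nat_or_neg
  · rw [zpow_natCast] at hn
    have := h2 m hn
    omega
  · rw [zpow_neg, inv_eq_one, zpow_natCast] at hn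
    have := h2 m hn
    omega

theorem comm_cU_infinite (g : U) (hg : g ≠ 1) (n : ℤ)
    (hn : (actU U g * cU * (actU U g)⁻¹ * cU⁻¹) ^ n = 1) : n = 0 := by
  classical
  unfold cU at hn
  rw [actU_tr, trU_inv, trU_mul] at hn
  apply trU_infinite _ _ n hn
  intro h
  have := congrFun h (1 : U)
  have h3 : g⁻¹ ≠ 1 := by simpa using hg
  simp [Pi.single_apply, h3] at this

theorem actU_injective : Function.Injective (actU U) := by
  classical
  intro g h hgh
  have h1 := congrArg (fun e : WG U => e (Pi.single 1 1) g) hgh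
  simp only [actU, MonoidHom.coe_mk, OneHom.coe_mk, Equiv.coe_fn_mk, inv_mul_cancel,
    Pi.single_apply] at h1
  by_contra hc
  have h2 : h⁻¹ * g ≠ 1 := by
    intro h3
    exact hc (inv_mul_eq_one.1 h3).symm
  simp [h2] at h1

end Pool.Agent.Q221.Rabin
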